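import Pool.Agent.H67.CUT.Ops

/-!
# CUT: the bent module and the one-parameter family of complexes

`gT X c t = 1 + t⁻¹ (1 + r c)`. `bend X U W c t`: the vertices in `W` act by `g (r v) g`, the other
vertices in `U` by `r v`, the remaining ones trivially. `dT X c t`: the differential on the pairs of
chains. `Φ (f₁, f₂) = dl f₁ + g (dl f₂)`.
-/

set_option autoImplicit false
set_option linter.unusedSectionVars false

open Finset

namespace Pool.Agent.H67.CUT

open Pool.Agent.H4.Singer3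

variable {V : Type} [DecidableEq V] [Fintype V] {G : SimpleGraph V} {F : Type} [Field F]
  {M : Type} [AddCommGroup M] [Module F M]

/-- `1 + t⁻¹ (1 + ρ)` -/
def gT (ρ : M →ₗ[F] M) (t : F) : M →ₗ[F] M := LinearMap.id + t⁻¹ • (LinearMap.id + ρ)

theorem gT_apply (ρ : M →ₗ[F] M) (t : F) (m : M) : gT ρ t m = m + t⁻¹ • (m + ρ m) := rfl

/-- the bent action -/
def bend (r : V → M →ₗ[F] M) (U W : Finset V) (c : V) (t : F) (v : V) : M →ₗ[F] M :=
  if v ∈ W then gT (r c) t ∘ₗ r v ∘ₗ gT (r c) t else if v ∈ U then r v else LinearMap.id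

/-- the differential -/
def dT (θ : M →ₗ[F] M) (c : V) (t : F) :
    (Finset V → M) × (Finset V → M) →ₗ[F] (Finset V → M) × (Finset V → M) :=
  (bM F M).prodMap (bM F M) +
    t • ((pw θ ∘ₗ (lkM F c).coprod (lkM F c)).prod (pw θ ∘ₗ (lkM F c).coprod (lkM F c)))

theorem dT_fst (θ : M →ₗ[F] M) (c : V) (t : F) (f : (Finset V → M) × (Finset V → M)) :
    (dT θ c t f).1 = bM F M f.1 + t • pw θ (lkM F c f.1 + lkM F c f.2) := rfl

theorem dT_snd (θ : M →ₗ[F] M) (c : V) (t : F) (f : (Finset V → M) × (Finset V → M)) :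
    (dT θ c t f).2 = bM F M f.2 + t • pw θ (lkM F c f.1 + lkM F c f.2) := rfl

/-- the chain map -/
def Phi (ρ : M →ₗ[F] M) (c : V) (t : F) :
    (Finset V → M) × (Finset V → M) →ₗ[F] (Finset V → M) :=
  (dlM F c).coprod (pw (gT ρ t) ∘ₗ dlM F c)

theorem Phi_apply (ρ : M →ₗ[F] M) (c : V) (t : F) (f : (Finset V → M) × (Finset V → M)) :
    Phi ρ c t f = dlM F c f.1 + pw (gT ρ t) (dlM F c f.2) := rfl

variable [CharP F 2]

section Algebra

variable {ρ θ : M →ₗ[F] M}

theorem gT_gT (hρ : ∀ m, ρ (ρ m) = m) (t : F) (m : M) : gT ρ t (gT ρ t m) = m := by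
  simp only [gT_apply, map_add, map_smul, hρ]
  have h1 := addM_self F (t⁻¹ • (m + ρ m))
  have h2 : m + t⁻¹ • (m + ρ m) + (ρ m + t⁻¹ • (ρ m + m)) = m + ρ m := by
    rw [add_comm (ρ m) m]
    calc m + t⁻¹ • (m + ρ m) + (ρ m + t⁻¹ • (m + ρ m))
        = (m + ρ m) + (t⁻¹ • (m + ρ m) + t⁻¹ • (m + ρ m)) := by abel
      _ = m + ρ m := by rw [h1, add_zero]
  rw [h2]
  calc m + t⁻¹ • (m + ρ m) + t⁻¹ • (m + ρ m)
      = m + (t⁻¹ • (m + ρ m) + t⁻¹ • (m + ρ m)) := by abel
    _ = m := by rw [h1, add_zero]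

/-- `g` fixes the invariants -/
theorem gT_fix (t : F) {a : M} (ha : ρ a = a) : gT ρ t a = a := by
  rw [gT_apply, ha, addM_self F, smul_zero, add_zero]

/-- `g (t θ w) = t θ w + w` for invariant `w` -/
theorem gT_theta (hθ : ∀ m, θ m + ρ (θ (ρ m)) = m) {t : F} (ht : t ≠ 0) {w : M} (hw : ρ w = w) :
    gT ρ t (t • θ w) = t • θ w + w := by
  have h := hθ w
  rw [hw] at h
  rw [gT_apply, map_smul, ← smul_add, h, smul_smul, inv_mul_cancel₀ ht, one_smul]

/-- maps commuting with `ρ` commute with `g` -/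
theorem gT_comm {φ : M →ₗ[F] M} (h : ∀ m, φ (ρ m) = ρ (φ m)) (t : F) (m : M) :
    φ (gT ρ t m) = gT ρ t (φ m) := by
  simp only [gT_apply, map_add, map_smul, h]

theorem gT_sum (hθ : ∀ m, θ m + ρ (θ (ρ m)) = m) {t : F} (ht : t ≠ 0) (A B a b : M)
    (ha : ρ a = a) (hb : ρ b = b) :
    (A + a + t • θ (a + b)) + gT ρ t (B + b + t • θ (a + b)) = A + gT ρ t B := by
  have hw : ρ (a + b) = a + b := by rw [map_add, ha, hb]
  have e1 : gT ρ t (B + b + t • θ (a + b)) = gT ρ t B + b + (t • θ (a + b) + (a + b)) := by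
    rw [map_add (gT ρ t) (B + b), map_add (gT ρ t) B, gT_fix t hb, gT_theta hθ ht hw]
  rw [e1]
  have h1 := addM_self F a
  have h2 := addM_self F b
  have h3 := addM_self F (t • θ (a + b))
  calc A + a + t • θ (a + b) + (gT ρ t B + b + (t • θ (a + b) + (a + b)))
      = A + gT ρ t B + (a + a) + (b + b) + (t • θ (a + b) + t • θ (a + b)) := by abel
    _ = A + gT ρ t B := by rw [h1, h2, h3, add_zero, add_zero, add_zero]

end Algebra

/-- the square of the differential vanishes -/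
theorem dT_dT (θ : M →ₗ[F] M) (c : V) (t : F) (f : (Finset V → M) × (Finset V → M)) :
    dT θ c t (dT θ c t f) = 0 := by
  have h0 : ∀ x : Finset V → M, x + x = 0 := fun x => addM_self F x
  have h1 : lkM F c (dT θ c t f).1 + lkM F c (dT θ c t f).2 =
      bM F M (lkM F c f.1 + lkM F c f.2) := by
    rw [dT_fst, dT_snd]
    simp only [map_add, lkM_bM]
    have h2 := h0 (lkM F c (t • (pw θ (lkM F c f.1) + pw θ (lkM F c f.2))))
    calc _ = bM F M (lkM F c f.1) + bM F M (lkM F c f.2) +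
          (lkM F c (t • (pw θ (lkM F c f.1) + pw θ (lkM F c f.2))) +
            lkM F c (t • (pw θ (lkM F c f.1) + pw θ (lkM F c f.2)))) := by abel
      _ = _ := by rw [h2, add_zero]
  refine Prod.ext ?_ ?_
  · rw [dT_fst, h1, dT_fst, map_add, bM_bM, zero_add, map_smul, bM_pw]
    exact h0 _
  · rw [dT_snd, h1, dT_snd, map_add, bM_bM, zero_add, map_smul, bM_pw]
    exact h0 _

end Pool.Agent.H67.CUT
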