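import Pool.Agent.H67.CUT.Cone

/-!
# CUT: the chain map from the degenerating complex to the complex of the bent module
-/

set_option autoImplicit false
set_option linter.unusedSectionVars false

open Finset

namespace Pool.Agent.H67.CUT

open Pool.Agent.H4.Singer3

variable {V : Type} [DecidableEq V] [Fintype V] {G : SimpleGraph V} {F : Type} [Field F]
  [CharP F 2] {M : Type} [AddCommGroup M] [Module F M]

/-- the pairs of chains of degree `i` -/
def EE (G : SimpleGraph V) (r : V → M →ₗ[F] M) (U W : Finset V) (c : V) (i : ℕ) :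
    Submodule F ((Finset V → M) × (Finset V → M)) :=
  (CM r (KU G (insert c U)) i).prod (CM r (KU G (insert c W)) i)

/-- properties of the link part -/
theorem lk_facts (X : MAct G univ F M) {U S : Finset V} {c : V}
    (hc : ∀ x ∈ U, G.Adj c x → x ∈ S) {i : ℕ} {f : Finset V → M}
    (hf : f ∈ CM X.r (KU G (insert c U)) i) (σ : Finset V) :
    (lkM F c f σ ≠ 0 → KU G S σ ∧ σ.card + 1 = i ∧ c ∉ σ) ∧
      X.r c (lkM F c f σ) = lkM F c f σ ∧ ∀ v ∈ σ, X.r v (lkM F c f σ) = lkM F c f σ := by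
  by_cases hcσ : c ∈ σ
  · rw [lkM_apply, if_pos hcσ]
    exact ⟨fun h => absurd rfl h, map_zero _, fun v _ => map_zero _⟩
  · rw [lkM_apply, if_neg hcσ]
    refine ⟨fun h => ?_, hf.2 _ c (mem_insert_self _ _), fun v hv =>
      hf.2 _ v (mem_insert_of_mem hv)⟩
    obtain ⟨⟨h1, h2⟩, h3⟩ := hf.1 _ h
    rw [card_insert_of_notMem hcσ] at h3
    refine ⟨⟨fun x hx => ?_, h2.subset (by exact_mod_cast subset_insert _ _)⟩, h3, hcσ⟩
    have hxc : x ≠ c := fun h => hcσ (h ▸ hx)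
    refine hc x ?_ ?_
    · rcases mem_insert.1 (h1 (mem_insert_of_mem hx)) with h | h
      · exact absurd h hxc
      · exact h
    · exact h2 (by exact_mod_cast mem_insert_self _ _) (by exact_mod_cast mem_insert_of_mem hx)
        hxc.symm

variable (X : MAct G univ F M) {U W : Finset V} {c : V} (hcU : c ∉ U) (hcW : c ∉ W)
  (hno : ∀ x ∈ U, x ∉ W → ∀ y ∈ W, y ∉ U → ¬ G.Adj x y)
  (hc : ∀ x ∈ U ∪ W, (G.Adj c x ↔ x ∈ U ∩ W))

include hc in
/-- the sum of the two link parts -/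
theorem w_facts {i : ℕ} {f : (Finset V → M) × (Finset V → M)} (hf : f ∈ EE G X.r U W c i)
    (σ : Finset V) :
    ((lkM F c f.1 + lkM F c f.2) σ ≠ 0 → KU G (U ∩ W) σ ∧ σ.card + 1 = i ∧ c ∉ σ) ∧
      X.r c ((lkM F c f.1 + lkM F c f.2) σ) = (lkM F c f.1 + lkM F c f.2) σ ∧
      ∀ v ∈ σ, X.r v ((lkM F c f.1 + lkM F c f.2) σ) = (lkM F c f.1 + lkM F c f.2) σ := by
  obtain ⟨hf1, hf2⟩ := hf
  obtain ⟨a1, a2, a3⟩ := lk_facts X (S := U ∩ W)
    (fun x hx h => (hc x (mem_union_left _ hx)).1 h) hf1 σ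
  obtain ⟨b1, b2, b3⟩ := lk_facts X (S := U ∩ W)
    (fun x hx h => (hc x (mem_union_right _ hx)).1 h) hf2 σ
  refine ⟨fun h => ?_, ?_, fun v hv => ?_⟩
  · by_cases h1 : lkM F c f.1 σ = 0
    · refine b1 fun h2 => h ?_
      rw [Pi.add_apply, h1, h2, add_zero]
    · exact a1 h1
  · rw [Pi.add_apply, map_add, a2, b2]
  · rw [Pi.add_apply, map_add, a3 v hv, b3 v hv]

include hc in
/-- the differential preserves the chains -/
theorem dT_mem (t : F) {i : ℕ} {f : (Finset V → M) × (Finset V → M)}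
    (hf : f ∈ EE G X.r U W c (i + 1)) : dT (X.th c) c t f ∈ EE G X.r U W c i := by
  have hw := w_facts X hc hf
  have key : ∀ T : Finset V, U ∩ W ⊆ T →
      pw (X.th c) (lkM F c f.1 + lkM F c f.2) ∈ CM X.r (KU G (insert c T)) i := by
    intro T hT
    refine ⟨fun σ h => ?_, fun σ v hv => ?_⟩
    · have h0 : (lkM F c f.1 + lkM F c f.2) σ ≠ 0 := fun h0 => h (by rw [pw_apply, h0, map_zero])
      obtain ⟨h1, h2, h3⟩ := (hw σ).1 h0
      exact ⟨⟨h1.1.trans (hT.trans (subset_insert _ _)), h1.2⟩, by omega⟩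
    · by_cases h0 : (lkM F c f.1 + lkM F c f.2) σ = 0
      · rw [pw_apply, h0, map_zero, map_zero]
      · obtain ⟨h1, h2, h3⟩ := (hw σ).1 h0
        rw [pw_apply, ← X.th_comm v (mem_univ _) c (mem_univ _) (fun h => h3 (h ▸ hv)),
          (hw σ).2.2 v hv]
  have hdown : ∀ T : Finset V, ∀ σ, KU G T σ → ∀ τ ⊆ σ, KU G T τ := KU_down' G
  refine ⟨?_, ?_⟩
  · change bM F M f.1 + t • pw (X.th c) (lkM F c f.1 + lkM F c f.2) ∈ CM X.r (KU G (insert c U)) i
    exact Submodule.add_mem _ (bM_mem_CM X.r (hdown _) hf.1)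
      (Submodule.smul_mem _ t (key U inter_subset_left))
  · change bM F M f.2 + t • pw (X.th c) (lkM F c f.1 + lkM F c f.2) ∈ CM X.r (KU G (insert c W)) i
    exact Submodule.add_mem _ (bM_mem_CM X.r (hdown _) hf.2)
      (Submodule.smul_mem _ t (key W inter_subset_right))

include hc in
/-- the involutions of the intersection are not bent -/
theorem bend_inter (t : F) {v : V} (hv : v ∈ U ∩ W) (m : M) :
    bend X.r U W c t v m = X.r v m := by
  have hρ : ∀ m, X.r c (X.r c m) = m := X.invol c (mem_univ _)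
  have hadj : G.Adj c v := (hc v (mem_union_left _ (mem_inter.1 hv).1)).2 hv
  unfold bend
  rw [if_pos (mem_inter.1 hv).2]
  change gT (X.r c) t (X.r v (gT (X.r c) t m)) = X.r v m
  rw [gT_comm (fun m => X.comm v (mem_univ _) c (mem_univ _) hadj.symm m), gT_gT hρ]

include hcU hcW hc in
/-- the chain map preserves the chains -/
theorem Phi_mem (t : F) {i : ℕ} {f : (Finset V → M) × (Finset V → M)}
    (hf : f ∈ EE G X.r U W c i) :
    Phi (X.r c) c t f ∈ CM (bend X.r U W c t) (KU G (U ∪ W)) i := by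
  have hρ : ∀ m, X.r c (X.r c m) = m := X.invol c (mem_univ _)
  obtain ⟨hf1, hf2⟩ := hf
  have hsub : ∀ (T : Finset V) (g : Finset V → M), g ∈ CM X.r (KU G (insert c T)) i →
      ∀ σ, dlM F c g σ ≠ 0 → (KU G T σ ∧ σ.card = i) := by
    intro T g hg σ h
    rw [dlM_apply] at h
    split_ifs at h with hcσ
    · exact absurd rfl h
    · obtain ⟨⟨h1, h2⟩, h3⟩ := hg.1 σ h
      refine ⟨⟨fun x hx => ?_, h2⟩, h3⟩
      rcases mem_insert.1 (h1 hx) with h4 | h4
      · exact absurd (h4 ▸ hx) hcσ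
      · exact h4
  have hinv : ∀ (T : Finset V) (g : Finset V → M), g ∈ CM X.r (KU G (insert c T)) i →
      ∀ σ, ∀ v ∈ σ, X.r v (dlM F c g σ) = dlM F c g σ := by
    intro T g hg σ v hv
    rw [dlM_apply]
    split_ifs with hcσ
    · exact map_zero _
    · exact hg.2 σ v hv
  rw [Phi_apply]
  refine Submodule.add_mem _ ⟨fun σ h => ?_, fun σ v hv => ?_⟩ ⟨fun σ h => ?_, fun σ v hv => ?_⟩
  · obtain ⟨h1, h2⟩ := hsub U _ hf1 σ h
    exact ⟨⟨h1.1.trans subset_union_left, h1.2⟩, h2⟩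
  · by_cases h0 : dlM F c f.1 σ = 0
    · rw [h0, map_zero]
    · obtain ⟨h1, h2⟩ := hsub U _ hf1 σ h0
      have hvU : v ∈ U := h1.1 hv
      by_cases hvW : v ∈ W
      · rw [bend_inter X hc t (mem_inter.2 ⟨hvU, hvW⟩), hinv U _ hf1 σ v hv]
      · unfold bend
        rw [if_neg hvW, if_pos hvU, hinv U _ hf1 σ v hv]
  · have h0 : dlM F c f.2 σ ≠ 0 := fun h0 => h (by rw [pw_apply, h0, map_zero])
    obtain ⟨h1, h2⟩ := hsub W _ hf2 σ h0
    exact ⟨⟨h1.1.trans subset_union_right, h1.2⟩, h2⟩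
  · by_cases h0 : dlM F c f.2 σ = 0
    · rw [pw_apply, h0, map_zero, map_zero]
    · obtain ⟨h1, h2⟩ := hsub W _ hf2 σ h0
      have hvW : v ∈ W := h1.1 hv
      unfold bend
      rw [if_pos hvW, pw_apply]
      change gT (X.r c) t (X.r v (gT (X.r c) t (gT (X.r c) t (dlM F c f.2 σ)))) = _
      rw [gT_gT hρ, hinv W _ hf2 σ v hv]

include hc in
/-- the chain map commutes with the differentials -/
theorem Phi_dT {t : F} (ht : t ≠ 0) {i : ℕ} {f : (Finset V → M) × (Finset V → M)}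
    (hf : f ∈ EE G X.r U W c i) :
    Phi (X.r c) c t (dT (X.th c) c t f) = bM F M (Phi (X.r c) c t f) := by
  obtain ⟨hf1, hf2⟩ := hf
  have hL2 := fun σ => lk_facts X (S := U ∩ W)
    (fun x hx h => (hc x (mem_union_right _ hx)).1 h) hf2 σ
  have hL1 := fun σ => lk_facts X (S := U ∩ W)
    (fun x hx h => (hc x (mem_union_left _ hx)).1 h) hf1 σ
  have hθ : ∀ m, X.th c m + X.r c (X.th c (X.r c m)) = m := X.th_self c (mem_univ _)
  have hL : dlM F c (lkM F c f.1 + lkM F c f.2) = lkM F c f.1 + lkM F c f.2 := by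
    rw [map_add, dlM_lkM, dlM_lkM]
  have hd : ∀ g : Finset V → M,
      dlM F c (bM F M g + t • pw (X.th c) (lkM F c f.1 + lkM F c f.2)) =
        bM F M (dlM F c g) + lkM F c g + t • pw (X.th c) (lkM F c f.1 + lkM F c f.2) := by
    intro g
    rw [map_add, dlM_bM, map_smul, dlM_pw, hL]
  rw [Phi_apply, Phi_apply, dT_fst, dT_snd, hd, hd, map_add (bM F M) (dlM F c f.1), bM_pw]
  funext σ
  exact gT_sum hθ ht _ _ _ _ (hL1 σ).2.1 (hL2 σ).2.1

/-- a clique of the union which is not contained in `U` is contained in `W` -/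
theorem smv_cover' {U W : Finset V} (hno : ∀ x ∈ U, x ∉ W → ∀ y ∈ W, y ∉ U → ¬ G.Adj x y)
    {σ : Finset V} (hσ : KU G (U ∪ W) σ) (hU : ¬ σ ⊆ U) : σ ⊆ W := by
  rw [Finset.not_subset] at hU
  obtain ⟨x, hx, hxU⟩ := hU
  have hxW : x ∈ W := by
    rcases Finset.mem_union.1 (hσ.1 hx) with h | h
    · exact absurd h hxU
    · exact h
  intro y hy
  by_contra hyW
  have hyU : y ∈ U := by
    rcases Finset.mem_union.1 (hσ.1 hy) with h | h
    · exact h
    · exact absurd h hyW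
  have hne : y ≠ x := fun h => hyW (h ▸ hxW)
  exact hno y hyU hyW x hxW hxU (hσ.2 (by exact_mod_cast hy) (by exact_mod_cast hx) hne)

include hcU hcW hno hc in
/-- the chain map is surjective on the cycles -/
theorem Phi_surj {t : F} (ht : t ≠ 0) {i : ℕ} {z : Finset V → M}
    (hz : z ∈ ZM (bend X.r U W c t) (KU G (U ∪ W)) i) :
    ∃ f ∈ EE G X.r U W c i, dT (X.th c) c t f = 0 ∧ Phi (X.r c) c t f = z := by
  classical
  have hρ : ∀ m, X.r c (X.r c m) = m := X.invol c (mem_univ _)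
  have hθ : ∀ m, X.th c m + X.r c (X.th c (X.r c m)) = m := X.th_self c (mem_univ _)
  obtain ⟨hz1, hz0⟩ := hz
  rw [SetLike.mem_coe, LinearMap.mem_ker] at hz0
  -- the two parts
  set x₁ := rsM F (· ⊆ U) z with hx₁
  set z₂ := rsM F (fun σ => ¬ σ ⊆ U) z with hz₂
  have hsum : x₁ + z₂ = z := by
    funext σ
    simp only [hx₁, hz₂, Pi.add_apply, rsM_apply]
    by_cases h : σ ⊆ U <;> simp [h]
  have hx1s : ∀ σ, x₁ σ ≠ 0 → KU G U σ ∧ σ.card = i := by
    intro σ h
    rw [hx₁, rsM_apply] at h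
    split_ifs at h with hU
    · exact ⟨⟨hU, (hz1.1 σ h).1.2⟩, (hz1.1 σ h).2⟩
    · exact absurd rfl h
  have hz2s : ∀ σ, z₂ σ ≠ 0 → KU G W σ ∧ σ.card = i := by
    intro σ h
    rw [hz₂, rsM_apply] at h
    by_cases hU : σ ⊆ U
    · rw [if_neg (not_not.2 hU)] at h
      exact absurd rfl h
    · rw [if_pos hU] at h
      exact ⟨⟨smv_cover' hno (hz1.1 σ h).1 hU, (hz1.1 σ h).1.2⟩, (hz1.1 σ h).2⟩
  have hx1i : ∀ σ, ∀ v ∈ σ, X.r v (x₁ σ) = x₁ σ := by
    intro σ v hv
    by_cases h0 : x₁ σ = 0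
    · rw [h0, map_zero]
    · have hvU : v ∈ U := (hx1s σ h0).1.1 hv
      have h1 : x₁ σ = z σ := by rw [hx₁, rsM_apply, if_pos (hx1s σ h0).1.1]
      have h2 := hz1.2 σ v hv
      rw [h1]
      by_cases hvW : v ∈ W
      · rwa [bend_inter X hc t (mem_inter.2 ⟨hvU, hvW⟩)] at h2
      · unfold bend at h2
        rwa [if_neg hvW, if_pos hvU] at h2
  have hz2i : ∀ σ, ∀ v ∈ σ, X.r v (gT (X.r c) t (z₂ σ)) = gT (X.r c) t (z₂ σ) := by
    intro σ v hv
    by_cases h0 : z₂ σ = 0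
    · rw [h0, map_zero, map_zero]
    · have hvW : v ∈ W := (hz2s σ h0).1.1 hv
      have h1 : z₂ σ = z σ := by
        by_cases hU : σ ⊆ U
        · exact absurd (by rw [hz₂, rsM_apply, if_neg (not_not.2 hU)]) h0
        · rw [hz₂, rsM_apply, if_pos hU]
      have h2 := hz1.2 σ v hv
      unfold bend at h2
      rw [if_pos hvW] at h2
      have h3 : gT (X.r c) t (X.r v (gT (X.r c) t (z σ))) = z σ := h2
      rw [h1]
      calc X.r v (gT (X.r c) t (z σ))
          = gT (X.r c) t (gT (X.r c) t (X.r v (gT (X.r c) t (z σ)))) := (gT_gT hρ t _).symm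
        _ = _ := by rw [h3]
  -- the common boundary
  set y := bM F M x₁ with hy
  have hadd : ∀ x : Finset V → M, x + x = 0 := fun x => addM_self F x
  have hy2 : bM F M z₂ = y := by
    have h1 : y + bM F M z₂ = 0 := by rw [hy, ← map_add, hsum, hz0]
    exact (add_left_cancel ((hadd y).trans h1.symm)).symm
  have hys : ∀ τ, y τ ≠ 0 → KU G (U ∩ W) τ ∧ τ.card + 1 = i ∧ c ∉ τ := by
    intro τ h
    have h1 := h
    rw [hy, bM_apply] at h1
    obtain ⟨u, hu, hne⟩ := Finset.exists_ne_zero_of_sum_ne_zero h1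
    have h2 := h
    rw [← hy2, bM_apply] at h2
    obtain ⟨u', hu', hne'⟩ := Finset.exists_ne_zero_of_sum_ne_zero h2
    rw [mem_compl] at hu hu'
    obtain ⟨h3, h4⟩ := hx1s _ hne
    obtain ⟨h5, h6⟩ := hz2s _ hne'
    rw [card_insert_of_notMem hu] at h4
    have h7 : τ ⊆ U := (subset_insert _ _).trans h3.1
    refine ⟨⟨subset_inter h7 ((subset_insert _ _).trans h5.1),
      h3.2.subset (by exact_mod_cast subset_insert _ _)⟩, h4, fun h8 => hcU (h7 h8)⟩
  have hyi : ∀ τ, ∀ v ∈ τ, X.r v (y τ) = y τ := by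
    intro τ v hv
    rw [hy, bM_apply, map_sum]
    exact Finset.sum_congr rfl fun u _ => hx1i (insert u τ) v (mem_insert_of_mem hv)
  have hby : bM F M y = 0 := by rw [hy, bM_bM]
  -- the link parts
  set NL : M →ₗ[F] M := LinearMap.id + X.r c with hNL
  have hN : ∀ m, NL m = m + X.r c m := fun m => rfl
  have hNN : ∀ m, X.r c (NL m) = NL m := by
    intro m
    rw [hN, map_add, hρ, add_comm]
  have hNa : ∀ m, X.r c (m + X.th c (NL m)) = m + X.th c (NL m) := by
    intro m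
    have h1 := hθ (NL m)
    rw [hNN] at h1
    have h2 : X.r c (X.th c (NL m)) = X.th c (NL m) + NL m := by
      calc X.r c (X.th c (NL m))
          = (X.th c (NL m) + X.th c (NL m)) + X.r c (X.th c (NL m)) := by
            rw [addM_self F (X.th c (NL m)), zero_add]
        _ = X.th c (NL m) + (X.th c (NL m) + X.r c (X.th c (NL m))) := by abel
        _ = _ := by rw [h1]
    rw [map_add, h2, hN]
    calc X.r c m + (X.th c (m + X.r c m) + (m + X.r c m))
        = (X.r c m + X.r c m) + (m + X.th c (m + X.r c m)) := by abel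
      _ = _ := by rw [addM_self F (X.r c m), zero_add]
  have hvN : ∀ τ, ∀ v ∈ τ, X.r v (NL (y τ)) = NL (y τ) := by
    intro τ v hv
    by_cases h0 : y τ = 0
    · rw [h0, map_zero, map_zero]
    · have hv2 : v ∈ U ∩ W := (hys τ h0).1.1 hv
      have hadj : G.Adj c v := (hc v (mem_union_left _ (mem_inter.1 hv2).1)).2 hv2
      rw [hN, map_add, X.comm v (mem_univ _) c (mem_univ _) hadj.symm, hyi τ v hv]
  have hvT : ∀ τ, ∀ v ∈ τ, X.r v (X.th c (NL (y τ))) = X.th c (NL (y τ)) := by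
    intro τ v hv
    by_cases h0 : y τ = 0
    · rw [h0, map_zero, map_zero, map_zero]
    · have hvc : v ≠ c := fun h => (hys τ h0).2.2 (h ▸ hv)
      rw [← X.th_comm v (mem_univ _) c (mem_univ _) hvc, hvN τ v hv]
  set a₁ : Finset V → M := y + pw (X.th c) (pw NL y) with ha₁
  set w : Finset V → M := t⁻¹ • pw NL y with hw
  have ha1 : ∀ τ, a₁ τ = y τ + X.th c (NL (y τ)) := fun τ => rfl
  have hwt : ∀ τ, w τ = t⁻¹ • NL (y τ) := fun τ => rfl
  have hcone : ∀ (T : Finset V), U ∩ W ⊆ T → ∀ a : Finset V → M, (∀ τ, y τ = 0 → a τ = 0) →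
      (∀ τ, X.r c (a τ) = a τ) → (∀ τ, ∀ v ∈ τ, X.r v (a τ) = a τ) →
      cnM F c a ∈ CM X.r (KU G (insert c T)) i := by
    intro T hT a h1 h2 h3
    refine ⟨fun σ h => ?_, fun σ v hv => ?_⟩
    · rw [cnM_apply] at h
      split_ifs at h with hcσ
      · obtain ⟨h4, h5, h6⟩ := hys (σ.erase c) fun h0 => h (h1 _ h0)
        refine ⟨⟨fun x hx => ?_, fun x hx x' hx' hne => ?_⟩, ?_⟩
        · by_cases hxc : x = c
          · exact hxc ▸ mem_insert_self _ _
          · exact mem_insert_of_mem (hT (h4.1 (mem_erase.2 ⟨hxc, hx⟩)))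
        · have hx2 : x ∈ σ := by exact_mod_cast hx
          have hx2' : x' ∈ σ := by exact_mod_cast hx'
          by_cases hxc : x = c
          · have h7 := h4.1 (mem_erase.2 ⟨fun h => hne (hxc.trans h.symm), hx2'⟩)
            rw [hxc]
            exact (hc x' (mem_union_left _ (mem_inter.1 h7).1)).2 h7
          · by_cases hxc' : x' = c
            · have h7 := h4.1 (mem_erase.2 ⟨hxc, hx2⟩)
              rw [hxc']
              exact ((hc x (mem_union_left _ (mem_inter.1 h7).1)).2 h7).symm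
            · exact h4.2 (by exact_mod_cast mem_erase.2 ⟨hxc, hx2⟩)
                (by exact_mod_cast mem_erase.2 ⟨hxc', hx2'⟩) hne
        · rw [card_erase_of_mem hcσ] at h5
          have := card_pos.2 ⟨c, hcσ⟩
          omega
      · exact absurd rfl h
    · rw [cnM_apply]
      split_ifs with hcσ
      · by_cases hvc : v = c
        · rw [hvc]
          exact h2 _
        · exact h3 _ v (mem_erase.2 ⟨hvc, hv⟩)
      · exact map_zero _
  have hai : ∀ τ, X.r c (a₁ τ) = a₁ τ := fun τ => hNa (y τ)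
  have hav : ∀ τ, ∀ v ∈ τ, X.r v (a₁ τ) = a₁ τ := fun τ v hv => by
    rw [ha1, map_add, hyi τ v hv, hvT τ v hv]
  have ha0 : ∀ τ, y τ = 0 → a₁ τ = 0 := fun τ h => by
    rw [ha1, h, map_zero, map_zero, add_zero]
  have hwi : ∀ τ, X.r c (w τ) = w τ := fun τ => by rw [hwt, map_smul, hNN]
  have hwv : ∀ τ, ∀ v ∈ τ, X.r v (w τ) = w τ := fun τ v hv => by rw [hwt, map_smul, hvN τ v hv]
  have hw0 : ∀ τ, y τ = 0 → w τ = 0 := fun τ h => by rw [hwt, h, map_zero, smul_zero]
  have hba : bM F M a₁ = 0 := by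
    rw [ha₁, map_add, bM_pw, bM_pw, hby, map_zero, map_zero, add_zero]
  have hbw : bM F M w = 0 := by
    rw [hw, map_smul, bM_pw, hby, map_zero, smul_zero]
  have hdl : ∀ a : Finset V → M, (∀ τ, y τ = 0 → a τ = 0) → dlM F c a = a := by
    intro a h
    funext τ
    rw [dlM_apply]
    split_ifs with hcτ
    · by_cases h0 : y τ = 0
      · rw [h τ h0]
      · exact absurd hcτ (hys τ h0).2.2
    · rfl
  have hlk0 : ∀ (x : Finset V → M), (∀ σ, c ∈ σ → x σ = 0) → lkM F c x = 0 := by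
    intro x h
    funext τ
    rw [lkM_apply]
    split_ifs
    · rfl
    · exact h _ (mem_insert_self _ _)
  have hdl0 : ∀ (x : Finset V → M), (∀ σ, c ∈ σ → x σ = 0) → dlM F c x = x := by
    intro x h
    funext τ
    rw [dlM_apply]
    split_ifs with hcτ
    · exact (h τ hcτ).symm
    · rfl
  have hx1c : ∀ σ, c ∈ σ → x₁ σ = 0 := fun σ hcσ => by
    by_contra h
    exact hcU ((hx1s σ h).1.1 hcσ)
  have hx2c : ∀ σ, c ∈ σ → pw (gT (X.r c) t) z₂ σ = 0 := fun σ hcσ => by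
    have h0 : z₂ σ = 0 := by
      by_contra h
      exact hcW ((hz2s σ h).1.1 hcσ)
    rw [pw_apply, h0, map_zero]
  have hl1 : lkM F c (x₁ + cnM F c a₁) = a₁ := by
    rw [map_add, hlk0 _ hx1c, lkM_cnM, hdl _ ha0, zero_add]
  have haw0 : ∀ τ, y τ = 0 → (a₁ + w) τ = 0 := fun τ h => by
    rw [Pi.add_apply, ha0 τ h, hw0 τ h, add_zero]
  have hl2 : lkM F c (pw (gT (X.r c) t) z₂ + cnM F c (a₁ + w)) = a₁ + w := by
    rw [map_add, hlk0 _ hx2c, lkM_cnM, hdl _ haw0, zero_add]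
  have hlw : lkM F c (x₁ + cnM F c a₁) + lkM F c (pw (gT (X.r c) t) z₂ + cnM F c (a₁ + w)) =
      w := by
    rw [hl1, hl2, ← add_assoc, hadd, zero_add]
  have htw : ∀ τ, t • X.th c (w τ) = X.th c (NL (y τ)) := fun τ => by
    rw [hwt, map_smul, smul_smul, mul_inv_cancel₀ ht, one_smul]
  refine ⟨(x₁ + cnM F c a₁, pw (gT (X.r c) t) z₂ + cnM F c (a₁ + w)), ⟨?_, ?_⟩, ?_, ?_⟩
  · refine Submodule.add_mem _ ⟨fun σ h => ?_, hx1i⟩ (hcone U inter_subset_left a₁ ha0 hai hav)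
    exact ⟨⟨(hx1s σ h).1.1.trans (subset_insert _ _), (hx1s σ h).1.2⟩, (hx1s σ h).2⟩
  · refine Submodule.add_mem _ ⟨fun σ h => ?_, hz2i⟩
      (hcone W inter_subset_right (a₁ + w) haw0 (fun τ => ?_) fun τ v hv => ?_)
    · have h0 : z₂ σ ≠ 0 := fun h0 => h (by
        change gT (X.r c) t (z₂ σ) = 0
        rw [h0, map_zero])
      exact ⟨⟨(hz2s σ h0).1.1.trans (subset_insert _ _), (hz2s σ h0).1.2⟩, (hz2s σ h0).2⟩
    · rw [Pi.add_apply, map_add, hai, hwi]
    · rw [Pi.add_apply, map_add, hav τ v hv, hwv τ v hv]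
  · refine Prod.ext ?_ ?_
    · rw [dT_fst]
      change bM F M (x₁ + cnM F c a₁) + t • pw (X.th c) (lkM F c (x₁ + cnM F c a₁) +
        lkM F c (pw (gT (X.r c) t) z₂ + cnM F c (a₁ + w))) = 0
      rw [hlw, map_add, bM_cnM c a₁ (hdl _ ha0), hba, map_zero, add_zero, ← hy]
      funext τ
      change y τ + a₁ τ + t • X.th c (w τ) = 0
      rw [htw, ha1]
      calc y τ + (y τ + X.th c (NL (y τ))) + X.th c (NL (y τ))
          = (y τ + y τ) + (X.th c (NL (y τ)) + X.th c (NL (y τ))) := by abel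
        _ = 0 := by rw [addM_self F, addM_self F, add_zero]
    · rw [dT_snd]
      change bM F M (pw (gT (X.r c) t) z₂ + cnM F c (a₁ + w)) +
        t • pw (X.th c) (lkM F c (x₁ + cnM F c a₁) +
          lkM F c (pw (gT (X.r c) t) z₂ + cnM F c (a₁ + w))) = 0
      rw [hlw, map_add, bM_cnM c (a₁ + w) (hdl _ haw0), map_add (bM F M) a₁, hba, hbw, add_zero,
        map_zero, add_zero, bM_pw, hy2]
      funext τ
      change gT (X.r c) t (y τ) + (a₁ τ + w τ) + t • X.th c (w τ) = 0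
      rw [htw, ha1, hwt, gT_apply, hN]
      calc y τ + t⁻¹ • (y τ + X.r c (y τ)) + (y τ + X.th c (y τ + X.r c (y τ)) +
            t⁻¹ • (y τ + X.r c (y τ))) + X.th c (y τ + X.r c (y τ))
          = (y τ + y τ) + (t⁻¹ • (y τ + X.r c (y τ)) + t⁻¹ • (y τ + X.r c (y τ))) +
            (X.th c (y τ + X.r c (y τ)) + X.th c (y τ + X.r c (y τ))) := by abel
        _ = 0 := by simp only [addM_self F]
  · rw [Phi_apply]
    change dlM F c (x₁ + cnM F c a₁) +
      pw (gT (X.r c) t) (dlM F c (pw (gT (X.r c) t) z₂ + cnM F c (a₁ + w))) = z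
    have e1 : dlM F c (x₁ + cnM F c a₁) = x₁ := by
      rw [map_add (dlM F c) x₁, dlM_cnM, add_zero, hdl0 _ hx1c]
    have e2 : dlM F c (pw (gT (X.r c) t) z₂ + cnM F c (a₁ + w)) = pw (gT (X.r c) t) z₂ := by
      rw [map_add (dlM F c) (pw (gT (X.r c) t) z₂), dlM_cnM, add_zero, hdl0 _ hx2c]
    rw [e1, e2, ← hsum]
    congr 1
    funext τ
    exact gT_gT hρ t (z₂ τ)

end Pool.Agent.H67.CUT
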