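import Pool.Agent.H67.CUT.Defs

/-!
# CUT: permutation modules with values in a vector space, extension of the field
-/

set_option autoImplicit false
set_option linter.unusedSectionVars false

open Finset

namespace Pool.Agent.H67.CUT

open Pool.Agent.H4.Singer3

variable {V : Type} [DecidableEq V] [Fintype V] {G : SimpleGraph V} {Ω : Type} [Fintype Ω]

/-- the coordinate `j` of a chain with values in `M` -/
private noncomputable def cutCopies_co {M : Type} [AddCommGroup M] [Module (ZMod 2) M] {n : ℕ}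
    (b : Module.Basis (Fin n) (ZMod 2) M) (j : Fin n) :
    (Finset V → Ω → M) →ₗ[ZMod 2] (Finset V → Ω → ZMod 2) where
  toFun f σ ω := b.repr (f σ ω) j
  map_add' f g := by
    funext σ ω
    simp
  map_smul' c f := by
    funext σ ω
    simp

private theorem cutCopies_co_apply {M : Type} [AddCommGroup M] [Module (ZMod 2) M] {n : ℕ}
    (b : Module.Basis (Fin n) (ZMod 2) M) (j : Fin n) (f : Finset V → Ω → M) (σ : Finset V)
    (ω : Ω) : cutCopies_co b j f σ ω = b.repr (f σ ω) j := rfl

/-- the chain with given coordinates -/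
private noncomputable def cutCopies_mk {M : Type} [AddCommGroup M] [Module (ZMod 2) M] {n : ℕ}
    (b : Module.Basis (Fin n) (ZMod 2) M) (g : Fin n → Finset V → Ω → ZMod 2) :
    Finset V → Ω → M := fun σ ω => ∑ j, g j σ ω • b j

private theorem cutCopies_co_mk {M : Type} [AddCommGroup M] [Module (ZMod 2) M] {n : ℕ}
    (b : Module.Basis (Fin n) (ZMod 2) M) (g : Fin n → Finset V → Ω → ZMod 2) (j : Fin n) :
    cutCopies_co b j (cutCopies_mk b g) = g j := by
  funext σ ω
  rw [cutCopies_co_apply, cutCopies_mk, map_sum, Finsupp.finsetSum_apply]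
  simp [Finsupp.single_apply]

private theorem cutCopies_ext {M : Type} [AddCommGroup M] [Module (ZMod 2) M] {n : ℕ}
    (b : Module.Basis (Fin n) (ZMod 2) M) {f g : Finset V → Ω → M}
    (h : ∀ j, cutCopies_co b j f = cutCopies_co b j g) : f = g := by
  funext σ ω
  refine b.repr.injective (Finsupp.ext fun j => ?_)
  exact congrFun (congrFun (h j) σ) ω

private theorem cutCopies_rank {M : Type} [AddCommGroup M] [Module (ZMod 2) M] {n : ℕ}
    (b : Module.Basis (Fin n) (ZMod 2) M) (S' : Submodule (ZMod 2) (Finset V → Ω → M))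
    (S : Submodule (ZMod 2) (Finset V → Ω → ZMod 2))
    (h : ∀ f, f ∈ S' ↔ ∀ j, cutCopies_co b j f ∈ S) :
    Module.finrank (ZMod 2) S' = n * Module.finrank (ZMod 2) S := by
  have e : S' ≃ₗ[ZMod 2] (Fin n → S) :=
    { toFun := fun f j => ⟨cutCopies_co b j f.1, (h f.1).1 f.2 j⟩
      map_add' := fun f g => by
        funext j
        exact Subtype.ext (map_add _ _ _)
      map_smul' := fun c f => by
        funext j
        exact Subtype.ext (map_smul _ _ _)
      invFun := fun g => ⟨cutCopies_mk b fun j => (g j).1, (h _).2 fun j => by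
        rw [cutCopies_co_mk]
        exact (g j).2⟩
      left_inv := fun f => by
        refine Subtype.ext (cutCopies_ext b fun j => ?_)
        rw [cutCopies_co_mk]
      right_inv := fun g => by
        funext j
        refine Subtype.ext ?_
        exact cutCopies_co_mk b _ j }
  rw [e.finrank_eq, Module.finrank_pi_fintype]
  simp

private theorem cutCopies_bd {M : Type} [AddCommGroup M] [Module (ZMod 2) M] {n : ℕ}
    (b : Module.Basis (Fin n) (ZMod 2) M) (j : Fin n) (f : Finset V → Ω → M) :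
    cutCopies_co b j (bM (ZMod 2) (Ω → M) f) = bd (cutCopies_co b j f) := by
  funext τ ω
  rw [cutCopies_co_apply, bM_apply, bd_apply, Finset.sum_apply, map_sum, Finsupp.finsetSum_apply]
  rfl

private theorem cutCopies_CM {M : Type} [AddCommGroup M] [Module (ZMod 2) M] {n : ℕ}
    (b : Module.Basis (Fin n) (ZMod 2) M) (X : Act G Ω) (𝒦 : Finset V → Prop) (i : ℕ)
    (f : Finset V → Ω → M) :
    f ∈ CM (permR (ZMod 2) M X.s) 𝒦 i ↔ ∀ j, cutCopies_co b j f ∈ CK X 𝒦 i := by
  rw [mem_CM]
  constructor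
  · rintro ⟨h1, h2⟩ j
    rw [mem_CK]
    refine ⟨fun σ ω hne => h1 σ fun h0 => hne ?_, fun σ v hv ω => ?_⟩
    · rw [cutCopies_co_apply, h0]
      simp
    · rw [cutCopies_co_apply, cutCopies_co_apply]
      have h3 : f σ (X.s v ω) = f σ ω := congrFun (h2 σ v hv) ω
      rw [h3]
  · intro h
    refine ⟨fun σ hne => ?_, fun σ v hv => ?_⟩
    · by_contra hc
      refine hne ?_
      funext ω
      refine b.repr.injective (Finsupp.ext fun j => ?_)
      by_contra h0
      refine hc (((mem_CK.1 (h j)).1 σ ω) fun h1 => h0 ?_)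
      rw [cutCopies_co_apply] at h1
      rw [h1]
      simp
    · funext ω
      refine b.repr.injective (Finsupp.ext fun j => ?_)
      exact (mem_CK.1 (h j)).2 σ v hv ω

private theorem cutCopies_ZM {M : Type} [AddCommGroup M] [Module (ZMod 2) M] {n : ℕ}
    (b : Module.Basis (Fin n) (ZMod 2) M) (X : Act G Ω) (𝒦 : Finset V → Prop) (i : ℕ)
    (f : Finset V → Ω → M) :
    f ∈ ZM (permR (ZMod 2) M X.s) 𝒦 i ↔ ∀ j, cutCopies_co b j f ∈ ZK X 𝒦 i := by
  rw [mem_ZM, cutCopies_CM b]
  constructor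
  · rintro ⟨h1, h2⟩ j
    refine mem_ZK.2 ⟨h1 j, ?_⟩
    rw [← cutCopies_bd, h2, map_zero]
  · intro h
    refine ⟨fun j => (mem_ZK.1 (h j)).1, cutCopies_ext b fun j => ?_⟩
    rw [cutCopies_bd, (mem_ZK.1 (h j)).2, map_zero]

private theorem cutCopies_BM {M : Type} [AddCommGroup M] [Module (ZMod 2) M] {n : ℕ}
    (b : Module.Basis (Fin n) (ZMod 2) M) (X : Act G Ω) (𝒦 : Finset V → Prop) (i : ℕ)
    (f : Finset V → Ω → M) :
    f ∈ BM (permR (ZMod 2) M X.s) 𝒦 i ↔ ∀ j, cutCopies_co b j f ∈ BK X 𝒦 i := by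
  constructor
  · rintro ⟨y, hy, rfl⟩ j
    rw [cutCopies_bd]
    exact ⟨_, (cutCopies_CM b X 𝒦 (i + 1) y).1 hy j, rfl⟩
  · intro h
    choose y hy hyf using fun j => mem_BK.1 (h j)
    refine ⟨cutCopies_mk b y, (cutCopies_CM b X 𝒦 (i + 1) _).2 fun j => ?_, cutCopies_ext b fun j => ?_⟩
    · rw [cutCopies_co_mk]
      exact hy j
    · rw [cutCopies_bd, cutCopies_co_mk]
      exact hyf j

/-- With a basis of `M`: the cycles and the boundaries are `finrank M` copies of `ZK X 𝒦 i` and
`BK X 𝒦 i`. -/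
theorem betM_perm (X : Act G Ω) (M : Type) [AddCommGroup M] [Module (ZMod 2) M]
    [Module.Finite (ZMod 2) M] (𝒦 : Finset V → Prop) (i : ℕ) :
    betM (permR (ZMod 2) M X.s) 𝒦 i = Module.finrank (ZMod 2) M * bet X 𝒦 i := by
  have b := Module.finBasis (ZMod 2) M
  unfold betM hd bet hdim
  rw [cutCopies_rank b _ _ (cutCopies_ZM b X 𝒦 i), cutCopies_rank b _ _ (cutCopies_BM b X 𝒦 i),
    Nat.mul_sub]

/-- Restriction of scalars: the cycles and boundaries are the same sets;
`Module.finrank_mul_finrank`. -/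
theorem betM_scal {F : Type} [Field F] [Algebra (ZMod 2) F] {M : Type}
    [AddCommGroup M] [Module F M] [Module (ZMod 2) M] [IsScalarTower (ZMod 2) F M]
    (r : V → M →ₗ[F] M) (𝒦 : Finset V → Prop) (i : ℕ) :
    betM (fun v => (r v).restrictScalars (ZMod 2)) 𝒦 i =
      Module.finrank (ZMod 2) F * betM r 𝒦 i := by
  have hZ : ZM (fun v => (r v).restrictScalars (ZMod 2)) 𝒦 i =
      (ZM r 𝒦 i).restrictScalars (ZMod 2) := by
    ext f
    rfl
  have hB : BM (fun v => (r v).restrictScalars (ZMod 2)) 𝒦 i =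
      (BM r 𝒦 i).restrictScalars (ZMod 2) := by
    ext f
    rfl
  unfold betM hd
  rw [hZ, hB, Nat.mul_sub]
  congr 1
  · exact (Module.finrank_mul_finrank (ZMod 2) F (ZM r 𝒦 i)).symm
  · exact (Module.finrank_mul_finrank (ZMod 2) F (BM r 𝒦 i)).symm

/-- The Betti numbers do not depend on the field of characteristic two: from `betM_perm` with `M = F`
and `betM_scal`. -/
theorem betM_field (X : Act G Ω) (F : Type) [Field F] [CharP F 2] [Finite F]
    (𝒦 : Finset V → Prop) (i : ℕ) : betM (permR F F X.s) 𝒦 i = bet X 𝒦 i := by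
  let _ : Algebra (ZMod 2) F := ZMod.algebra F 2
  have : Module.Finite (ZMod 2) F := Module.Finite.of_finite
  have h1 := betM_scal (permR F F X.s) 𝒦 i
  have h2 := betM_perm X F 𝒦 i
  have h3 : (fun v => (permR F F X.s v).restrictScalars (ZMod 2)) = permR (ZMod 2) F X.s := by
    funext v
    rfl
  rw [h3, h2] at h1
  exact (Nat.eq_of_mul_eq_mul_left Module.finrank_pos h1).symm

end Pool.Agent.H67.CUT
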