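import Pool.Agent.H4.Singer3.SDefs
import Mathlib.GroupTheory.PGroup
import Mathlib.Algebra.CharP.Two

/-!
# CUT: the two-group of a family of involutions
-/

set_option autoImplicit false
set_option linter.unusedSectionVars false

open Finset

namespace Pool.Agent.H67.CUT

open Pool.Agent.H4.Singer3

variable {V : Type} [DecidableEq V] [Fintype V]

/-- the left translations -/
private def cutGrp_T {K : Type} [Field K] {P : Type} [Group P] (q : P) : Module.End K (P → K) :=
  LinearMap.funLeft K K fun p => q⁻¹ * p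

private theorem cutGrp_T_apply {K : Type} [Field K] {P : Type} [Group P] (q : P) (f : P → K) (p : P) :
    (cutGrp_T q : Module.End K (P → K)) f p = f (q⁻¹ * p) := rfl

/-- a unit of odd order which commutes with the left translations and fixes the constants is `1` -/
private theorem cutGrp_odd {K : Type} [Field K] [CharP K 2] [Finite K] {P : Type} [Group P] [Fintype P] (hP : IsPGroup 2 P)
    (u : Module.End K (P → K)) (hT : ∀ q, u * cutGrp_T q = cutGrp_T q * u)
    (h1 : u (fun _ => 1) = fun _ => 1) {m : ℕ} (hm : Odd m) (hum : u ^ m = 1) : u = 1 := by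
  classical
  by_contra hne
  let N : Submodule K (P → K) := LinearMap.range (u - 1)
  have hN : ∀ q : P, ∀ f ∈ N, (cutGrp_T q : Module.End K (P → K)) f ∈ N := by
    rintro q _ ⟨h, rfl⟩
    refine ⟨(cutGrp_T q : Module.End K (P → K)) h, ?_⟩
    have h2 : (u - 1) * cutGrp_T q = cutGrp_T q * (u - 1) := by
      rw [sub_mul, mul_sub, hT q, one_mul, mul_one]
    exact LinearMap.congr_fun h2 h
  letI act : MulAction P N :=
    { smul := fun q f => ⟨(cutGrp_T q : Module.End K (P → K)) f.1, hN q f.1 f.2⟩
      one_smul := fun f => by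
        apply Subtype.ext
        funext p
        show f.1 ((1 : P)⁻¹ * p) = f.1 p
        rw [inv_one, one_mul]
      mul_smul := fun q q' f => by
        apply Subtype.ext
        funext p
        show f.1 ((q * q')⁻¹ * p) = f.1 (q'⁻¹ * (q⁻¹ * p))
        rw [mul_inv_rev, mul_assoc] }
  have hfin : Finite N := inferInstance
  -- a non-zero element of `N`
  obtain ⟨x, hx⟩ : ∃ x : N, x ≠ 0 := by
    by_contra hcon
    push Not at hcon
    apply hne
    refine LinearMap.ext fun f => ?_
    have h2 := congrArg Subtype.val (hcon ⟨(u - 1) f, f, rfl⟩)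
    have h3 : u f - f = 0 := h2
    exact sub_eq_zero.mp h3
  have hdvd : 2 ∣ Nat.card N := by
    have h2 : addOrderOf x = 2 := by
      refine addOrderOf_eq_prime (p := 2) ?_ hx
      rw [two_nsmul]
      apply Subtype.ext
      funext p
      show x.1 p + x.1 p = 0
      exact CharTwo.add_self_eq_zero _
    rw [← h2]
    exact addOrderOf_dvd_natCard x
  have h0 : (0 : N) ∈ MulAction.fixedPoints P N := by
    intro q
    apply Subtype.ext
    funext p
    rfl
  obtain ⟨f, hf, hf0⟩ := hP.exists_fixed_point_of_prime_dvd_card_of_fixed_point N hdvd h0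
  have hconst : ∀ p, f.1 p = f.1 1 := by
    intro p
    have h2 := congrFun (congrArg Subtype.val (hf p)) p
    have h3 : f.1 (p⁻¹ * p) = f.1 p := h2
    rw [inv_mul_cancel] at h3
    exact h3.symm
  have hf1 : f.1 1 ≠ 0 := by
    intro h2
    apply hf0
    apply Subtype.ext
    funext p
    show (0 : K) = f.1 p
    rw [hconst p, h2]
  obtain ⟨h, hh⟩ := f.2
  -- `1 = (u - 1) h'`
  have hh' : (u - 1) ((f.1 1)⁻¹ • h) = fun _ => 1 := by
    rw [map_smul]
    funext p
    have h2 := congrFun hh p
    rw [Pi.smul_apply, h2, hconst p, smul_eq_mul, inv_mul_cancel₀ hf1]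
  have hpow : ∀ j : ℕ, (u ^ j) (fun _ => (1 : K)) = fun _ => 1 := by
    intro j
    induction j with
    | zero => rfl
    | succ j ih =>
      rw [pow_succ]
      show (u ^ j) (u fun _ => 1) = _
      rw [h1, ih]
  have hsum := LinearMap.congr_fun (geom_sum_mul u m) ((f.1 1)⁻¹ • h)
  rw [hum, sub_self] at hsum
  have h3 : (∑ i ∈ range m, u ^ i) ((u - 1) ((f.1 1)⁻¹ • h)) = 0 := hsum
  rw [hh', LinearMap.sum_apply] at h3
  have h4 := congrFun h3 1
  rw [Finset.sum_apply] at h4
  simp only [hpow] at h4
  rw [sum_const, card_range, nsmul_eq_mul, mul_one] at h4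
  have h5 : ((m : ℕ) : K) = 0 := h4
  rw [CharP.cast_eq_zero_iff K 2] at h5
  obtain ⟨k, hk⟩ := hm
  omega

section

variable {F : Type} [Field F] {P : Type} [Group P]

/-- the involutions as units -/
private def cutGrp_u (r : V → (P → F) →ₗ[F] (P → F)) (h2 : ∀ v f, r v (r v f) = f) (v : V) :
    (Module.End F (P → F))ˣ where
  val := r v
  inv := r v
  val_inv := LinearMap.ext fun f => h2 v f
  inv_val := LinearMap.ext fun f => h2 v f

/-- the generators -/
private def cutGrp_g (r : V → (P → F) →ₗ[F] (P → F)) (h2 : ∀ v f, r v (r v f) = f) (v : V) :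
    (Module.End F (P → F))ˣ × (V → Multiplicative (ZMod 2)) :=
  (cutGrp_u r h2 v, Pi.mulSingle v (Multiplicative.ofAdd 1))

/-- the group -/
private def cutGrp_P (r : V → (P → F) →ₗ[F] (P → F)) (h2 : ∀ v f, r v (r v f) = f) :
    Subgroup ((Module.End F (P → F))ˣ × (V → Multiplicative (ZMod 2))) :=
  Subgroup.closure (Set.range (cutGrp_g r h2))

private theorem cutGrp_fst (r : V → (P → F) →ₗ[F] (P → F)) (h2 : ∀ v f, r v (r v f) = f)
    (hl : ∀ v q f, r v (fun p => f (q * p)) = fun p => r v f (q * p))
    (h1 : ∀ v, r v (fun _ => 1) = fun _ => 1)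
    {x : (Module.End F (P → F))ˣ × (V → Multiplicative (ZMod 2))} (hx : x ∈ cutGrp_P r h2) :
    (∀ q, (x.1 : Module.End F (P → F)) * cutGrp_T q = cutGrp_T q * (x.1 : Module.End F (P → F))) ∧
      (x.1 : Module.End F (P → F)) (fun _ => 1) = fun _ => 1 := by
  induction hx using Subgroup.closure_induction with
  | mem x hx =>
    obtain ⟨v, rfl⟩ := hx
    exact ⟨fun q => LinearMap.ext fun f => hl v q⁻¹ f, h1 v⟩
  | one => exact ⟨fun q => by rw [Prod.fst_one, Units.val_one, one_mul, mul_one], rfl⟩
  | mul x y _ _ hx hy =>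
    refine ⟨fun q => ?_, ?_⟩
    · rw [Prod.fst_mul, Units.val_mul, mul_assoc, hy.1 q, ← mul_assoc, hx.1 q, mul_assoc]
    · rw [Prod.fst_mul, Units.val_mul]
      show (x.1 : Module.End F (P → F)) ((y.1 : Module.End F (P → F)) fun _ => 1) = _
      rw [hy.2, hx.2]
  | inv x _ hx =>
    refine ⟨fun q => ?_, ?_⟩
    · rw [Prod.fst_inv]
      have h2 := hx.1 q
      calc ((x.1⁻¹ : (Module.End F (P → F))ˣ) : Module.End F (P → F)) * cutGrp_T q
          = ((x.1⁻¹ : (Module.End F (P → F))ˣ) : Module.End F (P → F)) * cutGrp_T q *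
            ((x.1 : Module.End F (P → F)) *
              ((x.1⁻¹ : (Module.End F (P → F))ˣ) : Module.End F (P → F))) := by
            rw [Units.mul_inv, mul_one]
        _ = ((x.1⁻¹ : (Module.End F (P → F))ˣ) : Module.End F (P → F)) *
            (cutGrp_T q * (x.1 : Module.End F (P → F))) *
              ((x.1⁻¹ : (Module.End F (P → F))ˣ) : Module.End F (P → F)) := by
            simp only [mul_assoc]
        _ = ((x.1⁻¹ : (Module.End F (P → F))ˣ) : Module.End F (P → F)) *
            ((x.1 : Module.End F (P → F)) * cutGrp_T q) *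
              ((x.1⁻¹ : (Module.End F (P → F))ˣ) : Module.End F (P → F)) := by rw [h2]
        _ = _ := by rw [← mul_assoc, Units.inv_mul, one_mul]
    · rw [Prod.fst_inv]
      calc ((x.1⁻¹ : (Module.End F (P → F))ˣ) : Module.End F (P → F)) (fun _ => 1)
          = ((x.1⁻¹ : (Module.End F (P → F))ˣ) : Module.End F (P → F))
            ((x.1 : Module.End F (P → F)) fun _ => 1) := by rw [hx.2]
        _ = (((x.1⁻¹ : (Module.End F (P → F))ˣ) : Module.End F (P → F)) *
            (x.1 : Module.End F (P → F))) (fun _ => 1) := rfl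
        _ = _ := by rw [Units.inv_mul]; rfl

end

/-- Involutions of the functions on a two-group `P` which commute with the left translations and fix
the constants generate a finite two-group. The same proof as `exists_lam` in `H71/SC/Lam` (there for
one special family): the subgroup of `(Module.End F (P → F))ˣ × (V → Multiplicative (ZMod 2))`
generated by the pairs `(r v, e v)`; the second component gives the bits. -/
theorem exists_group {P : Type} [Group P] [Fintype P] (hP : IsPGroup 2 P) {F : Type} [Field F]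
    [CharP F 2] [Finite F] (G : SimpleGraph V) (r : V → (P → F) →ₗ[F] (P → F))
    (h2 : ∀ v f, r v (r v f) = f) (hc : ∀ u v, G.Adj u v → ∀ f, r u (r v f) = r v (r u f))
    (hl : ∀ v q f, r v (fun p => f (q * p)) = fun p => r v f (q * p))
    (h1 : ∀ v, r v (fun _ => 1) = fun _ => 1) :
    ∃ (Q : Type) (_ : Group Q) (_ : Fintype Q) (D : Gen G Q) (R : Q → (P → F) →ₗ[F] (P → F)),
      IsPGroup 2 Q ∧ (∀ q, Function.Injective (R q)) ∧
        ∀ q v f, r v (R (q * D.g v) f) = R q f := by
  classical
  have hf1 : Finite (P → F) := inferInstance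
  have hf2 : Finite (Module.End F (P → F)) :=
    Finite.of_injective (fun u : Module.End F (P → F) => (u : (P → F) → (P → F)))
      DFunLike.coe_injective
  have hf3 : Finite (Module.End F (P → F))ˣ :=
    Finite.of_injective (fun u : (Module.End F (P → F))ˣ => (u : Module.End F (P → F)))
      Units.val_injective
  have hf0 : Finite (Multiplicative (ZMod 2)) := inferInstanceAs (Finite (ZMod 2))
  have hf4 : Finite ((Module.End F (P → F))ˣ × (V → Multiplicative (ZMod 2))) := inferInstance
  have hf5 : Finite (cutGrp_P r h2) := inferInstance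
  have htwo : IsPGroup 2 (cutGrp_P r h2) := by
    rintro ⟨x, hx⟩
    have hn : orderOf x ≠ 0 := (orderOf_pos x).ne'
    obtain ⟨a, m, hm, ham⟩ := Nat.exists_eq_two_pow_mul_odd hn
    have hy : x ^ 2 ^ a ∈ cutGrp_P r h2 := Subgroup.pow_mem _ hx _
    obtain ⟨h3, h4⟩ := cutGrp_fst r h2 hl h1 hy
    have h5 : (x ^ 2 ^ a) ^ m = 1 := by
      rw [← pow_mul, ← ham, pow_orderOf_eq_one]
    have h6 : (((x ^ 2 ^ a).1 : (Module.End F (P → F))ˣ) : Module.End F (P → F)) ^ m = 1 := by
      have h7 := congrArg Prod.fst h5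
      rw [Prod.fst_one] at h7
      have h8 := congrArg Units.val h7
      rw [Units.val_one] at h8
      rw [← h8]
      rfl
    have h7 := cutGrp_odd hP _ h3 h4 hm h6
    have h8 : (x ^ 2 ^ a).1 = 1 := Units.ext h7
    refine ⟨a + 1, ?_⟩
    apply Subtype.ext
    show x ^ 2 ^ (a + 1) = 1
    rw [pow_succ, pow_mul]
    refine Prod.ext ?_ ?_
    · rw [Prod.pow_fst, h8, one_pow, Prod.fst_one]
    · rw [Prod.pow_snd, Prod.snd_one]
      funext v
      rw [Pi.pow_apply, Pi.one_apply]
      have h : ∀ b : Multiplicative (ZMod 2), b ^ 2 = 1 := by decide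
      exact h _
  let D : Gen G (cutGrp_P r h2) :=
    { g := fun v => ⟨cutGrp_g r h2 v, Subgroup.subset_closure ⟨v, rfl⟩⟩
      sq := fun v => by
        apply Subtype.ext
        refine Prod.ext (Units.ext (LinearMap.ext fun f => h2 v f)) ?_
        show (Pi.mulSingle v (Multiplicative.ofAdd 1) : V → Multiplicative (ZMod 2)) *
          Pi.mulSingle v (Multiplicative.ofAdd 1) = 1
        rw [← Pi.mulSingle_mul]
        have : (Multiplicative.ofAdd 1 * Multiplicative.ofAdd 1 : Multiplicative (ZMod 2)) = 1 := by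
          decide
        rw [this, Pi.mulSingle_one]
      comm := fun u v h => by
        apply Subtype.ext
        refine Prod.ext (Units.ext (LinearMap.ext fun f => hc u v h f)) ?_
        exact mul_comm _ _
      bit := fun p v => decide (p.1.2 v ≠ 1)
      bit_mul := fun p v => by
        have hc : ∀ c : Multiplicative (ZMod 2), decide (c * Multiplicative.ofAdd 1 ≠ 1) =
            !decide (c ≠ 1) := by decide
        funext x
        show decide ((p.1.2 * Pi.mulSingle v (Multiplicative.ofAdd 1) : V → Multiplicative (ZMod 2)) x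
          ≠ 1) = _
        by_cases h : x = v
        · subst h
          rw [Function.update_self, Pi.mul_apply, Pi.mulSingle_eq_same, hc]
        · rw [Function.update_of_ne h, Pi.mul_apply, Pi.mulSingle_eq_of_ne h, mul_one] }
  refine ⟨cutGrp_P r h2, inferInstance, Fintype.ofFinite _, D, fun p =>
    ((p.1.1⁻¹ : (Module.End F (P → F))ˣ) : Module.End F (P → F)), htwo, fun p => ?_,
    fun p v f => ?_⟩
  · intro f f' h
    have h2 : ∀ f : P → F, (p.1.1 : Module.End F (P → F))
        (((p.1.1⁻¹ : (Module.End F (P → F))ˣ) : Module.End F (P → F)) f) = f := by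
      intro f
      calc (p.1.1 : Module.End F (P → F))
            (((p.1.1⁻¹ : (Module.End F (P → F))ˣ) : Module.End F (P → F)) f)
          = ((p.1.1 : Module.End F (P → F)) *
            ((p.1.1⁻¹ : (Module.End F (P → F))ˣ) : Module.End F (P → F))) f := rfl
        _ = f := by rw [Units.mul_inv]; rfl
    rw [← h2 f, ← h2 f']
    exact congrArg _ h
  · have h3 : ((((p * D.g v).1.1)⁻¹ : (Module.End F (P → F))ˣ) : Module.End F (P → F)) =
        (r v : Module.End F (P → F)) *
          ((p.1.1⁻¹ : (Module.End F (P → F))ˣ) : Module.End F (P → F)) := by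
      have h4 : ((p * D.g v).1.1)⁻¹ = (cutGrp_u r h2 v)⁻¹ * p.1.1⁻¹ := by
        show (p.1.1 * cutGrp_u r h2 v)⁻¹ = _
        rw [mul_inv_rev]
      rw [h4, Units.val_mul]
      rfl
    show r v (((((p * D.g v).1.1)⁻¹ : (Module.End F (P → F))ˣ) :
      Module.End F (P → F)) f) = _
    rw [h3]
    exact h2 v _

end Pool.Agent.H67.CUT
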