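import Pool.Agent.H67.CUT.Prod
import Pool.Agent.H67.CUT.Copies

/-!
# CUT: the homology with coefficients in the regular representation of a two-group is the smallest one
-/

set_option autoImplicit false
set_option linter.unusedSectionVars false

open Finset

namespace Pool.Agent.H67.CUT

open Pool.Agent.H4.Singer3

variable {V : Type} [DecidableEq V] [Fintype V] {G : SimpleGraph V}

/-- Let the involutions of the module `M` define a representation of the two-group `Q` (`R q` is the
inverse of the action of `q`). Then the Betti number of the functions on `Q`, divided by the order of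
`Q`, is at most the Betti number of `M` divided by the dimension of `M`. -/
theorem mono {Q : Type} [Group Q] [Fintype Q] (hQ : IsPGroup 2 Q) (D : Gen G Q)
    {M : Type} [AddCommGroup M] [Module (ZMod 2) M] [Module.Finite (ZMod 2) M]
    {U : Finset V} (X : MAct G U (ZMod 2) M) (R : Q → M →ₗ[ZMod 2] M) (hR : ∀ q, Function.Injective (R q))
    (hRr : ∀ q v m, X.r v (R (q * D.g v) m) = R q m) (i : ℕ) :
    Module.finrank (ZMod 2) M * bet D.act (KU G U) i ≤
      Fintype.card Q * betM X.r (KU G U) i := by
  rw [← betM_perm D.act M (KU G U) i]
  refine le_trans ?_ (betM_prod_le X hQ D.g D.sq D.comm i)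
  refine betM_le_of_equiv _ _
    (LinearEquiv.piCongrRight fun q => LinearEquiv.ofInjectiveEndo (R q) (hR q)) ?_
    (KU_down' G U) i
  intro v F
  funext q
  exact (hRr q v (F (q * D.g v))).symm

end Pool.Agent.H67.CUT
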