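import Pool.Agent.H67.CUT.Fam
import Pool.Agent.H67.CUT.Mon
import Pool.Agent.H67.CUT.Grp
import Pool.Agent.H4.Singer3.SDens
import Mathlib.FieldTheory.Finite.GaloisField

/-!
# CUT: mod 2 homology growth of a union

`dens_cut`: let `U`, `W` be sets of vertices without edges between `U \ W` and `W \ U`, and `c` a vertex
whose neighbours in `U ∪ W` are the vertices of `U ∩ W`. If the mod 2 homology growth in degree `i`
vanishes for the special subgroups on `U ∪ {c}` and `W ∪ {c}` then it vanishes for `U ∪ W`.
-/

set_option autoImplicit false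
set_option linter.unusedSectionVars false

open Finset

namespace Pool.Agent.H67.CUT

open Pool.Agent.H4.Singer3

variable {V : Type} [DecidableEq V] [Fintype V] {G : SimpleGraph V}

/-- the functions on a set with an action -/
def permAct {Ω : Type} (X : Act G Ω) (F : Type) [Field F] : MAct G univ F (Ω → F) where
  r := permR F F X.s
  invol v _ f := by
    funext ω
    exact congrArg f (X.invol v ω)
  comm u _ v _ h f := by
    funext ω
    exact congrArg f (X.comm u v h ω).symm
  th v :=
    { toFun := fun f ω => if X.bit ω v then 0 else f ω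
      map_add' := fun f g => by
        funext ω
        simp only [Pi.add_apply]
        split_ifs <;> simp
      map_smul' := fun a f => by
        funext ω
        simp only [Pi.smul_apply, smul_eq_mul, RingHom.id_apply]
        split_ifs <;> simp }
  th_self v _ f := by
    funext ω
    change (if X.bit ω v then 0 else f ω) +
      (if X.bit (X.s v ω) v then 0 else f (X.s v (X.s v ω))) = f ω
    rw [bit_self, X.invol]
    cases X.bit ω v <;> simp
  th_comm u _ v _ huv f := by
    funext ω
    change (if X.bit ω v then 0 else f (X.s u ω)) = if X.bit (X.s u ω) v then 0 else f (X.s u ω)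
    rw [bit_ne X huv]

/-- restriction of scalars -/
def MAct.restrict {A : Finset V} {F M : Type} [Field F] [Algebra (ZMod 2) F] [AddCommGroup M]
    [Module F M] [Module (ZMod 2) M] [IsScalarTower (ZMod 2) F M] (X : MAct G A F M) :
    MAct G A (ZMod 2) M where
  r v := (X.r v).restrictScalars (ZMod 2)
  invol := X.invol
  comm := X.comm
  th v := (X.th v).restrictScalars (ZMod 2)
  th_self := X.th_self
  th_comm := X.th_comm

/-- the inequality for one group -/
theorem cut_group {U W : Finset V} {c : V} (hcU : c ∉ U) (hcW : c ∉ W)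
    (hno : ∀ x ∈ U, x ∉ W → ∀ y ∈ W, y ∉ U → ¬ G.Adj x y)
    (hc : ∀ x ∈ U ∪ W, (G.Adj c x ↔ x ∈ U ∩ W)) (i : ℕ) {P : Type} [Group P] [Fintype P]
    (D : Gen G P) (hP : IsPGroup 2 P) :
    ∃ (Q : Type) (_ : Group Q) (_ : Fintype Q) (E : Gen G Q), IsPGroup 2 Q ∧
      Fintype.card P * bet E.act (KU G (U ∪ W)) i ≤ Fintype.card Q *
        (bet D.act (KU G (insert c U)) i + bet D.act (KU G (insert c W)) i) := by
  classical
  -- a large finite field
  obtain ⟨n, hn⟩ : ∃ n : ℕ, 4 * (2 ^ Fintype.card V * Fintype.card P) + 1 < 2 ^ n :=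
    ⟨_, Nat.lt_two_pow_self⟩
  have hn0 : n ≠ 0 := by
    rintro rfl
    simp at hn
  let F := GaloisField 2 n
  have hfinF : Finite F := inferInstance
  have : Fintype F := Fintype.ofFinite F
  have hcardF : Nat.card F = 2 ^ n := GaloisField.card 2 n hn0
  let X : MAct G univ F (P → F) := permAct D.act F
  obtain ⟨T, hT, hbound⟩ := cone_bound X hcU hcW hno hc i
  have hdim : Module.finrank F ((Finset V → P → F) × (Finset V → P → F)) =
      2 * (2 ^ Fintype.card V * Fintype.card P) := by
    rw [Module.finrank_prod, Module.finrank_pi_fintype, Finset.sum_const, card_univ,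
      Fintype.card_finset, Module.finrank_fintype_fun_eq_card, smul_eq_mul]
    ring
  obtain ⟨t, ht⟩ : ∃ t : F, t ∉ insert 0 T := by
    by_contra hcon
    push Not at hcon
    have h1 : Fintype.card F ≤ (insert 0 T).card := by
      rw [← card_univ]
      exact card_le_card fun x _ => hcon x
    have h2 := card_insert_le (0 : F) T
    rw [← Nat.card_eq_fintype_card, hcardF] at h1
    rw [hdim] at hT
    omega
  rw [mem_insert, not_or] at ht
  have hb := hbound t ht.2 ht.1
  have hρ : ∀ m, X.r c (X.r c m) = m := X.invol c (mem_univ _)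
  -- the two-group
  have hid : ∀ v, v ∉ U ∪ W → ∀ f, bend X.r U W c t v f = f := by
    intro v hv f
    rw [mem_union, not_or] at hv
    unfold bend
    rw [if_neg hv.2, if_neg hv.1]
    rfl
  have e2 : ∀ v f, bend X.r U W c t v (bend X.r U W c t v f) = f := by
    intro v f
    by_cases hv : v ∈ U ∪ W
    · exact (bendAct X hcU hcW hno hc t).invol v hv f
    · rw [hid v hv, hid v hv]
  have e3 : ∀ u v, G.Adj u v → ∀ f, bend X.r U W c t u (bend X.r U W c t v f) =
      bend X.r U W c t v (bend X.r U W c t u f) := by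
    intro u v huv f
    by_cases hu : u ∈ U ∪ W
    · by_cases hv : v ∈ U ∪ W
      · exact (bendAct X hcU hcW hno hc t).comm u hu v hv huv f
      · rw [hid v hv, hid v hv]
    · rw [hid u hu, hid u hu]
  have e4 : ∀ v (q : P) (f : P → F), bend X.r U W c t v (fun p => f (q * p)) =
      fun p => bend X.r U W c t v f (q * p) := by
    intro v q f
    have hr : ∀ v (f : P → F), X.r v (fun p => f (q * p)) = fun p => X.r v f (q * p) := by
      intro v f
      funext p
      change f (q * (p * D.g v)) = f (q * p * D.g v)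
      rw [mul_assoc]
    have hg : ∀ f : P → F, gT (X.r c) t (fun p => f (q * p)) =
        fun p => gT (X.r c) t f (q * p) := by
      intro f
      rw [gT_apply, hr, gT_apply]
      rfl
    unfold bend
    split_ifs
    · change gT (X.r c) t (X.r v (gT (X.r c) t (fun p => f (q * p)))) =
        fun p => gT (X.r c) t (X.r v (gT (X.r c) t f)) (q * p)
      rw [hg, hr, hg]
    · exact hr v f
    · rfl
  have e5 : ∀ v, bend X.r U W c t v (fun _ => 1) = fun _ => 1 := by
    intro v
    have hr : ∀ v, X.r v (fun _ => (1 : F)) = fun _ => 1 := fun v => rfl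
    have hg : gT (X.r c) t (fun _ => (1 : F)) = fun _ => 1 := gT_fix t (hr c)
    unfold bend
    split_ifs
    · change gT (X.r c) t (X.r v (gT (X.r c) t fun _ => 1)) = _
      rw [hg, hr, hg]
    · exact hr v
    · rfl
  obtain ⟨Q, gQ, fQ, E, R, hQ, hR, hRr⟩ := exists_group hP G (bend X.r U W c t) e2 e3 e4 e5
  refine ⟨Q, gQ, fQ, E, hQ, ?_⟩
  have hm := mono hQ E (bendAct X hcU hcW hno hc t).restrict
    (fun q => (R q).restrictScalars (ZMod 2)) hR hRr i
  have hs : betM (bendAct X hcU hcW hno hc t).restrict.r (KU G (U ∪ W)) i =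
      Module.finrank (ZMod 2) F * betM (bend X.r U W c t) (KU G (U ∪ W)) i :=
    betM_scal (bend X.r U W c t) (KU G (U ∪ W)) i
  have hf1 : betM X.r (KU G (insert c U)) i = bet D.act (KU G (insert c U)) i :=
    betM_field D.act F _ i
  have hf2 : betM X.r (KU G (insert c W)) i = bet D.act (KU G (insert c W)) i :=
    betM_field D.act F _ i
  have hdP : Module.finrank (ZMod 2) (P → F) =
      Fintype.card P * Module.finrank (ZMod 2) F := by
    rw [Module.finrank_pi_fintype, Finset.sum_const, card_univ, smul_eq_mul]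
  rw [hs, hdP] at hm
  rw [hf1, hf2] at hb
  have hpos : 0 < Module.finrank (ZMod 2) F := Module.finrank_pos
  have h1 : Module.finrank (ZMod 2) F * (Fintype.card P * bet E.act (KU G (U ∪ W)) i) ≤
      Module.finrank (ZMod 2) F * (Fintype.card Q *
        (bet D.act (KU G (insert c U)) i + bet D.act (KU G (insert c W)) i)) := by
    calc Module.finrank (ZMod 2) F * (Fintype.card P * bet E.act (KU G (U ∪ W)) i)
        = Fintype.card P * Module.finrank (ZMod 2) F * bet E.act (KU G (U ∪ W)) i := by ring
      _ ≤ _ := hm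
      _ ≤ Fintype.card Q * (Module.finrank (ZMod 2) F *
          (bet D.act (KU G (insert c U)) i + bet D.act (KU G (insert c W)) i)) :=
          Nat.mul_le_mul_left _ (Nat.mul_le_mul_left _ hb)
      _ = _ := by ring
  exact Nat.le_of_mul_le_mul_left h1 hpos

/-- **The cut inequality** for vanishing growth. -/
theorem dens_cut {U W : Finset V} {c : V} {i : ℕ} (hcU : c ∉ U) (hcW : c ∉ W)
    (hno : ∀ x ∈ U, x ∉ W → ∀ y ∈ W, y ∉ U → ¬ G.Adj x y)
    (hc : ∀ x ∈ U ∪ W, (G.Adj c x ↔ x ∈ U ∩ W)) (h1 : Dens G (insert c U) i)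
    (h2 : Dens G (insert c W) i) : Dens G (U ∪ W) i := by
  intro m
  obtain ⟨P, _, _, D, hP, b1, b2, _⟩ := dens_common h1 h2 h2 (2 * m)
  obtain ⟨Q, gQ, fQ, E, hQ, hb⟩ := cut_group hcU hcW hno hc i D hP
  refine ⟨Q, gQ, fQ, E, hQ, ?_⟩
  have hpos : 0 < Fintype.card P := Fintype.card_pos
  set a1 := bet D.act (KU G (insert c U)) i
  set a2 := bet D.act (KU G (insert c W)) i
  have h3 : m * (a1 + a2) ≤ Fintype.card P := by
    have h4 : 2 * (m * a1) ≤ Fintype.card P := by rw [← mul_assoc]; exact b1
    have h5 : 2 * (m * a2) ≤ Fintype.card P := by rw [← mul_assoc]; exact b2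
    rw [mul_add]
    omega
  have key : Fintype.card P * (m * bet E.act (KU G (U ∪ W)) i) ≤
      Fintype.card P * Fintype.card Q := by
   calc Fintype.card P * (m * bet E.act (KU G (U ∪ W)) i)
      = m * (Fintype.card P * bet E.act (KU G (U ∪ W)) i) := by ring
    _ ≤ m * (Fintype.card Q * (a1 + a2)) := Nat.mul_le_mul_left _ hb
    _ = Fintype.card Q * (m * (a1 + a2)) := by ring
    _ ≤ Fintype.card Q * Fintype.card P := Nat.mul_le_mul_left _ h3
    _ = Fintype.card P * Fintype.card Q := Nat.mul_comm _ _
  exact Nat.le_of_mul_le_mul_left key hpos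

end Pool.Agent.H67.CUT
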