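import Pool.Agent.H67.CUT.Defs

/-!
# CUT: dimensions, the complex
-/

set_option autoImplicit false
set_option linter.unusedSectionVars false

open Finset

namespace Pool.Agent.H67.CUT

open Pool.Agent.H4.Singer3

/-! ## Dimensions (as in `H4/Singer3/SBasic`, over any field) -/

section Dim

variable {K : Type} [Field K] {M M' M'' : Type} [AddCommGroup M] [Module K M] [Module.Finite K M]
  [AddCommGroup M'] [Module K M'] [Module.Finite K M']
  [AddCommGroup M''] [Module K M''] [Module.Finite K M'']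

private theorem cutCx_hd_eq (Z B : Submodule K M) (hB : B ≤ Z) :
    hd Z B = Module.finrank K (Z.map B.mkQ) := by
  have h := LinearMap.finrank_range_add_finrank_ker (B.mkQ.comp Z.subtype)
  rw [LinearMap.range_comp, Submodule.range_subtype, LinearMap.ker_comp, Submodule.ker_mkQ] at h
  have h2 : Module.finrank K (B.comap Z.subtype) = Module.finrank K B :=
    LinearEquiv.finrank_eq (Submodule.comapSubtypeEquivOfLe hB)
  rw [h2] at h
  unfold hd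
  omega

/-- the exactness lemma, proof as `hdim_le` -/
theorem hd_le (Z B : Submodule K M) (Z' B' : Submodule K M')
    (Z'' B'' : Submodule K M'') (hB : B ≤ Z) (hB' : B' ≤ Z') (hB'' : B'' ≤ Z'')
    (ψ : M →ₗ[K] M'') (φ : M' →ₗ[K] M) (h1 : ∀ z ∈ Z, ψ z ∈ Z'')
    (h2 : ∀ b ∈ B, ψ b ∈ B'') (h3 : ∀ z ∈ Z, ψ z ∈ B'' → ∃ z' ∈ Z', φ z' - z ∈ B)
    (h4 : ∀ b ∈ B', φ b ∈ B) : hd Z B ≤ hd Z' B' + hd Z'' B'' := by
  rw [cutCx_hd_eq Z B hB, cutCx_hd_eq Z' B' hB', cutCx_hd_eq Z'' B'' hB'']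
  let ψq := Submodule.mapQ B B'' ψ h2
  let φq := Submodule.mapQ B' B φ h4
  have h5 := LinearMap.finrank_range_add_finrank_ker (ψq.comp (Z.map B.mkQ).subtype)
  have h6 : Module.finrank K (LinearMap.range (ψq.comp (Z.map B.mkQ).subtype)) ≤
      Module.finrank K (Z''.map B''.mkQ) := by
    refine Submodule.finrank_mono ?_
    rintro _ ⟨⟨x, hx⟩, rfl⟩
    obtain ⟨z, hz, rfl⟩ := hx
    exact ⟨ψ z, h1 z hz, rfl⟩
  have h7 : Module.finrank K (LinearMap.ker (ψq.comp (Z.map B.mkQ).subtype)) ≤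
      Module.finrank K (Z'.map B'.mkQ) := by
    have h8 : (LinearMap.ker (ψq.comp (Z.map B.mkQ).subtype)).map (Z.map B.mkQ).subtype ≤
        (Z'.map B'.mkQ).map φq := by
      rintro _ ⟨⟨x, hx⟩, hk, rfl⟩
      obtain ⟨z, hz, rfl⟩ := hx
      have h9 : ψ z ∈ B'' := by
        have : (Submodule.Quotient.mk (ψ z) : M'' ⧸ B'') = 0 := hk
        exact (Submodule.Quotient.mk_eq_zero _).1 this
      obtain ⟨z', hz', hd'⟩ := h3 z hz h9
      refine ⟨B'.mkQ z', ⟨z', hz', rfl⟩, ?_⟩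
      change Submodule.Quotient.mk (φ z') = Submodule.Quotient.mk z
      rwa [Submodule.Quotient.eq]
    have h10 := Submodule.finrank_mono h8
    have h11 := (Submodule.equivMapOfInjective (Z.map B.mkQ).subtype
      (Submodule.injective_subtype _)
      (LinearMap.ker (ψq.comp (Z.map B.mkQ).subtype))).finrank_eq
    rw [h11]
    exact h10.trans (Submodule.finrank_map_le _ _)
  omega

/-- injective maps on homology -/
theorem hd_le_of_inj (Z B : Submodule K M) (Z'' B'' : Submodule K M'')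
    (hB : B ≤ Z) (hB'' : B'' ≤ Z'') (ψ : M →ₗ[K] M'') (h1 : ∀ z ∈ Z, ψ z ∈ Z'')
    (h2 : ∀ b ∈ B, ψ b ∈ B'') (h3 : ∀ z ∈ Z, ψ z ∈ B'' → z ∈ B) :
    hd Z B ≤ hd Z'' B'' := by
  have h := hd_le Z B B B Z'' B'' hB le_rfl hB'' ψ LinearMap.id h1 h2
    (fun z hz hz' => ⟨0, Submodule.zero_mem _, by
      simpa using h3 z hz hz'⟩) (fun b hb => hb)
  simpa [hd] using h

/-- surjective maps on homology -/
theorem hd_le_of_surj (Z B : Submodule K M) (Z' B' : Submodule K M')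
    (hB : B ≤ Z) (hB' : B' ≤ Z') (φ : M' →ₗ[K] M)
    (h3 : ∀ z ∈ Z, ∃ z' ∈ Z', φ z' - z ∈ B) (h4 : ∀ b ∈ B', φ b ∈ B) :
    hd Z B ≤ hd Z' B' := by
  have h := hd_le Z B Z' B' (⊥ : Submodule K M) ⊥ hB hB' le_rfl 0 φ
    (fun z _ => Submodule.zero_mem _) (fun z _ => Submodule.zero_mem _)
    (fun z hz _ => h3 z hz) h4
  simpa [hd] using h

end Dim

variable {V : Type} [DecidableEq V] [Fintype V] {G : SimpleGraph V} {K : Type} [Field K]
  [CharP K 2]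

section

variable {M : Type} [AddCommGroup M] [Module K M]

theorem CM_mono (r : V → M →ₗ[K] M) {𝒦 𝒦' : Finset V → Prop} (h : ∀ σ, 𝒦 σ → 𝒦' σ) (i : ℕ) :
    CM r 𝒦 i ≤ CM r 𝒦' i :=
  fun _ hf => ⟨fun σ hne => ⟨h σ (hf.1 σ hne).1, (hf.1 σ hne).2⟩, hf.2⟩

/-- the boundary of a chain is a chain (as `bd_mem_CK`) -/
theorem bM_mem_CM (r : V → M →ₗ[K] M) {𝒦 : Finset V → Prop} (h𝒦 : ∀ σ, 𝒦 σ → ∀ τ ⊆ σ, 𝒦 τ)
    {i : ℕ} {f : Finset V → M} (hf : f ∈ CM r 𝒦 (i + 1)) : bM K M f ∈ CM r 𝒦 i := by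
  rw [mem_CM] at hf ⊢
  obtain ⟨h1, h2⟩ := hf
  refine ⟨fun τ h => ?_, fun τ v hv => ?_⟩
  · rw [bM_apply] at h
    obtain ⟨u, hu, hne⟩ := Finset.exists_ne_zero_of_sum_ne_zero h
    rw [Finset.mem_compl] at hu
    obtain ⟨h3, h4⟩ := h1 _ hne
    rw [Finset.card_insert_of_notMem hu] at h4
    exact ⟨h𝒦 _ h3 τ (subset_insert _ _), by omega⟩
  · rw [bM_apply, map_sum]
    exact Finset.sum_congr rfl fun u _ => h2 (insert u τ) v (mem_insert_of_mem hv)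

/-- `∂∂ = 0` (as `bd_bd`) -/
theorem bM_bM (f : Finset V → M) : bM K M (bM K M f) = 0 := by
  have hadd : ∀ x : M, x + x = 0 := fun x => by
    rw [← two_smul K x, CharTwo.two_eq_zero, zero_smul]
  funext τ
  rw [bM_apply]
  simp only [bM_apply, Pi.zero_apply]
  rw [Finset.sum_sigma']
  refine Finset.sum_involution (fun p _ => ⟨p.2, p.1⟩) ?_ ?_ ?_ ?_
  · rintro ⟨v, u⟩ h
    simp only
    rw [Finset.insert_comm v u τ]
    exact hadd _
  · rintro ⟨v, u⟩ h _ heq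
    simp only [Finset.mem_sigma, Finset.mem_compl, Finset.mem_insert, not_or] at h
    simp only [Sigma.mk.injEq, heq_eq_eq] at heq
    exact h.2.1 heq.1
  · rintro ⟨v, u⟩ h
    simp only [Finset.mem_sigma, Finset.mem_compl, Finset.mem_insert, not_or] at h ⊢
    exact ⟨h.2.2, fun h1 => h.2.1 h1.symm, h.1⟩
  · rintro ⟨v, u⟩ _
    rfl

theorem BM_le_ZM (r : V → M →ₗ[K] M) {𝒦 : Finset V → Prop} (h𝒦 : ∀ σ, 𝒦 σ → ∀ τ ⊆ σ, 𝒦 τ)
    (i : ℕ) : BM r 𝒦 i ≤ ZM r 𝒦 i := by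
  rintro _ ⟨f, hf, rfl⟩
  exact ⟨bM_mem_CM r h𝒦 hf, bM_bM f⟩

end

/-- an equivariant linear map, applied to chains -/
private def cutCx_mp {M M' : Type} [AddCommGroup M] [Module K M] [AddCommGroup M'] [Module K M']
    (e : M →ₗ[K] M') : (Finset V → M) →ₗ[K] (Finset V → M') where
  toFun f σ := e (f σ)
  map_add' f g := by
    funext σ
    simp
  map_smul' c f := by
    funext σ
    simp

private theorem cutCx_mp_bM {M M' : Type} [AddCommGroup M] [Module K M] [AddCommGroup M']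
    [Module K M'] (e : M →ₗ[K] M') (f : Finset V → M) :
    bM K M' (cutCx_mp e f) = cutCx_mp e (bM K M f) := by
  funext τ
  change ∑ v ∈ τᶜ, e (f (insert v τ)) = e (∑ v ∈ τᶜ, f (insert v τ))
  rw [map_sum]

private theorem cutCx_mp_mem {M M' : Type} [AddCommGroup M] [Module K M] [AddCommGroup M']
    [Module K M'] (r : V → M →ₗ[K] M) (r' : V → M' →ₗ[K] M') (e : M →ₗ[K] M')
    (he : ∀ v m, e (r v m) = r' v (e m)) {𝒦 : Finset V → Prop} (j : ℕ) (f : Finset V → M)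
    (hf : f ∈ CM r 𝒦 j) : cutCx_mp e f ∈ CM r' 𝒦 j := by
  rw [mem_CM] at hf ⊢
  refine ⟨fun σ h => hf.1 σ fun h0 => h ?_, fun σ v hv => ?_⟩
  · change e (f σ) = 0
    rw [h0, map_zero]
  · change r' v (e (f σ)) = e (f σ)
    rw [← he, hf.2 σ v hv]

/-- equivariant injections with the same dimension -/
theorem betM_le_of_equiv {M M' : Type} [AddCommGroup M] [Module K M] [Module.Finite K M]
    [AddCommGroup M'] [Module K M'] [Module.Finite K M'] (r : V → M →ₗ[K] M)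
    (r' : V → M' →ₗ[K] M') (e : M ≃ₗ[K] M') (he : ∀ v m, e (r v m) = r' v (e m))
    {𝒦 : Finset V → Prop} (h𝒦 : ∀ σ, 𝒦 σ → ∀ τ ⊆ σ, 𝒦 τ) (i : ℕ) :
    betM r 𝒦 i ≤ betM r' 𝒦 i := by
  have he' : ∀ v m, e.symm (r' v m) = r v (e.symm m) := fun v m => by
    rw [LinearEquiv.symm_apply_eq, he, LinearEquiv.apply_symm_apply]
  have h3 : ∀ f : Finset V → M,
      cutCx_mp (e.symm : M' →ₗ[K] M) (cutCx_mp (e : M →ₗ[K] M') f) = f := by
    intro f
    funext σ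
    exact e.symm_apply_apply (f σ)
  unfold betM
  refine hd_le_of_inj _ _ _ _ (BM_le_ZM r h𝒦 i) (BM_le_ZM r' h𝒦 i)
    (cutCx_mp (e : M →ₗ[K] M')) ?_ ?_ ?_
  · intro z hz
    rw [mem_ZM] at hz ⊢
    exact ⟨cutCx_mp_mem r r' (e : M →ₗ[K] M') he i z hz.1, by rw [cutCx_mp_bM, hz.2, map_zero]⟩
  · rintro _ ⟨y, hy, rfl⟩
    exact ⟨cutCx_mp (e : M →ₗ[K] M') y, cutCx_mp_mem r r' (e : M →ₗ[K] M') he _ y hy,
      cutCx_mp_bM _ y⟩
  · rintro z _ ⟨y, hy, hyz⟩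
    refine ⟨cutCx_mp (e.symm : M' →ₗ[K] M) y,
      cutCx_mp_mem r' r (e.symm : M' →ₗ[K] M) he' _ y hy, ?_⟩
    rw [cutCx_mp_bM, hyz, h3]

end Pool.Agent.H67.CUT
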