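import Pool.Agent.H4.Singer3.SBasic

/-!
# CUT: modules with involutions

Coefficients in a vector space `M` with involutions `r v` instead of the functions on a set with an
action (`Pool.Agent.H4.Singer3.Act`). `MAct` = involutions which commute for the edges, with `th v` in
the role of the bits.
-/

set_option autoImplicit false
set_option linter.unusedSectionVars false

open Finset

namespace Pool.Agent.H67.CUT

open Pool.Agent.H4.Singer3

variable {V : Type} [DecidableEq V] [Fintype V]

/-- A vector space with involutions `r v` (`v ∈ A`), commuting for adjacent vertices, and maps `th v`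
with `th v + r v (th v) (r v) = 1`, which commute with the other involutions. -/
structure MAct (G : SimpleGraph V) (A : Finset V) (K M : Type) [Field K] [AddCommGroup M]
    [Module K M] where
  /-- the involutions -/
  r : V → M →ₗ[K] M
  invol : ∀ v ∈ A, ∀ m, r v (r v m) = m
  comm : ∀ u ∈ A, ∀ v ∈ A, G.Adj u v → ∀ m, r u (r v m) = r v (r u m)
  /-- the halves -/
  th : V → M →ₗ[K] M
  th_self : ∀ v ∈ A, ∀ m, th v m + r v (th v (r v m)) = m
  th_comm : ∀ u ∈ A, ∀ v ∈ A, u ≠ v → ∀ m, th v (r u m) = r u (th v m)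

section

variable {K M : Type} [Field K] [AddCommGroup M] [Module K M]

/-- chains of degree `i` on the simplices in `𝒦`, with coefficients in `M` -/
def CM (r : V → M →ₗ[K] M) (𝒦 : Finset V → Prop) (i : ℕ) : Submodule K (Finset V → M) where
  carrier := {f | (∀ σ, f σ ≠ 0 → 𝒦 σ ∧ σ.card = i) ∧ ∀ σ, ∀ v ∈ σ, r v (f σ) = f σ}
  zero_mem' := ⟨fun σ h => absurd rfl h, fun σ v _ => by simp⟩
  add_mem' := by
    rintro f g ⟨h1, h2⟩ ⟨h3, h4⟩
    refine ⟨fun σ h => ?_, fun σ v hv => ?_⟩
    · by_cases hf : f σ = 0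
      · by_cases hg : g σ = 0
        · exact absurd (by simp [hf, hg]) h
        · exact h3 σ hg
      · exact h1 σ hf
    · rw [Pi.add_apply, map_add, h2 σ v hv, h4 σ v hv]
  smul_mem' := by
    rintro c f ⟨h1, h2⟩
    refine ⟨fun σ h => h1 σ fun h0 => h ?_, fun σ v hv => ?_⟩
    · simp [h0]
    · rw [Pi.smul_apply, map_smul, h2 σ v hv]

theorem mem_CM {r : V → M →ₗ[K] M} {𝒦 : Finset V → Prop} {i : ℕ} {f : Finset V → M} :
    f ∈ CM r 𝒦 i ↔ (∀ σ, f σ ≠ 0 → 𝒦 σ ∧ σ.card = i) ∧ ∀ σ, ∀ v ∈ σ, r v (f σ) = f σ := Iff.rfl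

variable (K M) in
/-- the boundary operator -/
def bM : (Finset V → M) →ₗ[K] (Finset V → M) where
  toFun f τ := ∑ v ∈ τᶜ, f (insert v τ)
  map_add' f g := by
    funext τ
    simp [Finset.sum_add_distrib]
  map_smul' c f := by
    funext τ
    simp [Finset.smul_sum]

theorem bM_apply (f : Finset V → M) (τ : Finset V) : bM K M f τ = ∑ v ∈ τᶜ, f (insert v τ) := rfl

/-- cycles -/
def ZM (r : V → M →ₗ[K] M) (𝒦 : Finset V → Prop) (i : ℕ) : Submodule K (Finset V → M) :=
  CM r 𝒦 i ⊓ LinearMap.ker (bM K M)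

/-- boundaries -/
def BM (r : V → M →ₗ[K] M) (𝒦 : Finset V → Prop) (i : ℕ) : Submodule K (Finset V → M) :=
  (CM r 𝒦 (i + 1)).map (bM K M)

theorem mem_ZM {r : V → M →ₗ[K] M} {𝒦 : Finset V → Prop} {i : ℕ} {f : Finset V → M} :
    f ∈ ZM r 𝒦 i ↔ f ∈ CM r 𝒦 i ∧ bM K M f = 0 := Iff.rfl

theorem mem_BM {r : V → M →ₗ[K] M} {𝒦 : Finset V → Prop} {i : ℕ} {f : Finset V → M} :
    f ∈ BM r 𝒦 i ↔ ∃ y ∈ CM r 𝒦 (i + 1), bM K M y = f := Iff.rfl

/-- `dim Z - dim B` -/
noncomputable def hd (Z B : Submodule K M) : ℕ := Module.finrank K Z - Module.finrank K B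

/-- Betti numbers -/
noncomputable def betM (r : V → M →ₗ[K] M) (𝒦 : Finset V → Prop) (i : ℕ) : ℕ :=
  hd (ZM r 𝒦 i) (BM r 𝒦 i)

end

/-- the action of `s v` on the functions with values in `M` -/
def permR (K : Type) [Field K] {Ω : Type} (M : Type) [AddCommGroup M] [Module K M] (s : V → Ω → Ω)
    (v : V) : (Ω → M) →ₗ[K] (Ω → M) where
  toFun f ω := f (s v ω)
  map_add' _ _ := rfl
  map_smul' _ _ := rfl

/-- The functions on a group `Q` with values in `M`, with the involutions
`(r v φ) q = r v (φ (q * g v))`. -/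
def prodM {G : SimpleGraph V} {A : Finset V} {K M : Type} [Field K] [AddCommGroup M] [Module K M]
    {Q : Type} [Group Q] (g : V → Q) (hg : ∀ v, g v * g v = 1)
    (hgc : ∀ u v, G.Adj u v → g u * g v = g v * g u) (X : MAct G A K M) : MAct G A K (Q → M) where
  r v :=
    { toFun := fun φ q => X.r v (φ (q * g v))
      map_add' := fun φ ψ => by
        funext q
        simp
      map_smul' := fun c φ => by
        funext q
        simp }
  invol v hv φ := by
    funext q
    change X.r v (X.r v (φ (q * g v * g v))) = φ q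
    rw [X.invol v hv, mul_assoc, hg, mul_one]
  comm u hu v hv h φ := by
    funext q
    change X.r u (X.r v (φ (q * g u * g v))) = X.r v (X.r u (φ (q * g v * g u)))
    rw [X.comm u hu v hv h, mul_assoc, mul_assoc, hgc u v h]
  th v :=
    { toFun := fun φ q => X.th v (φ q)
      map_add' := fun φ ψ => by
        funext q
        simp
      map_smul' := fun c φ => by
        funext q
        simp }
  th_self v hv φ := by
    funext q
    change X.th v (φ q) + X.r v (X.th v (X.r v (φ (q * g v * g v)))) = φ q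
    rw [mul_assoc, hg, mul_one, X.th_self v hv]
  th_comm u hu v hv h φ := by
    funext q
    exact X.th_comm u hu v hv h _

end Pool.Agent.H67.CUT
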