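import Mathlib

/-!
# CUT: semicontinuity of the homology in a linear family of complexes
-/

set_option autoImplicit false

open Module

namespace Pool.Agent.H67.CUT

variable {F : Type} [Field F]

/-- the version without the bound: a bad value `s` gives an eigenvalue `-s` of a fixed
endomorphism of a complement of `ker f` -/
private theorem cutSemi_eig {E E' : Type} [AddCommGroup E] [Module F E] [FiniteDimensional F E]
    [AddCommGroup E'] [Module F E'] (f g : E →ₗ[F] E') :
    ∃ (U : Submodule F E) (M : Module.End F U), ∀ s : F,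
      finrank F (LinearMap.ker f) < finrank F (LinearMap.ker (s • f + g)) →
        M.HasEigenvalue (-s) := by
  classical
  obtain ⟨U, hU⟩ := Submodule.exists_isCompl (LinearMap.ker f)
  have hinj : LinearMap.ker (f.domRestrict U) = ⊥ := by
    rw [LinearMap.ker_eq_bot']
    intro u hu
    have h1 : (u : E) ∈ LinearMap.ker f := by
      rw [LinearMap.mem_ker]
      exact hu
    have h2 : (u : E) ∈ LinearMap.ker f ⊓ U := ⟨h1, u.2⟩
    rw [hU.inf_eq_bot, Submodule.mem_bot] at h2
    exact Subtype.ext h2
  obtain ⟨p, hp⟩ := (f.domRestrict U).exists_leftInverse_of_injective hinj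
  refine ⟨U, p ∘ₗ g.domRestrict U, ?_⟩
  intro s hs
  by_contra hcon
  have hdis : Disjoint (LinearMap.ker (s • f + g)) U := by
    rw [Submodule.disjoint_def]
    intro x hx hxU
    rw [LinearMap.mem_ker] at hx
    have h1 : s • f x + g x = 0 := hx
    have h2 : p (f x) = ⟨x, hxU⟩ := LinearMap.congr_fun hp ⟨x, hxU⟩
    have h3 : (p ∘ₗ g.domRestrict U) ⟨x, hxU⟩ = (-s) • (⟨x, hxU⟩ : U) := by
      have h4 : p (s • f x + g x) = 0 := by rw [h1, map_zero]
      rw [map_add, map_smul, h2] at h4
      change p (g x) = _
      rw [neg_smul]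
      exact eq_neg_of_add_eq_zero_right h4
    by_contra hx0
    refine hcon ?_
    refine Module.End.hasEigenvalue_of_hasEigenvector (x := ⟨x, hxU⟩) ?_
    refine ⟨Module.End.mem_eigenspace_iff.2 h3, ?_⟩
    intro h5
    exact hx0 (congrArg Subtype.val h5)
  have h1 := Submodule.finrank_add_finrank_le_of_disjoint hdis
  have h2 := Submodule.finrank_add_eq_of_isCompl hU
  omega

/-- For all but at most `finrank E` values `t`: `dim ker (f + t g) ≤ dim ker f`.
(`finite_bad` in `Lin.lean` is the version without the bound: choose a complement `U` of `ker f` and a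
left inverse `p` of `f` on `U`; if `ker (s f + g)` is larger than `ker f` then it meets `U` and `-s` is
an eigenvalue of `p ∘ g` on `U`; here `s = t⁻¹`. The number of the eigenvalues is at most `dim U`:
roots of the characteristic polynomial.) -/
theorem card_bad {E E' : Type} [AddCommGroup E] [Module F E] [FiniteDimensional F E]
    [AddCommGroup E'] [Module F E'] (f g : E →ₗ[F] E') :
    ∃ T : Finset F, T.card ≤ finrank F E ∧
      ∀ t, t ∉ T → finrank F (LinearMap.ker (f + t • g)) ≤ finrank F (LinearMap.ker f) := by
  classical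
  obtain ⟨U, M, hM⟩ := cutSemi_eig f g
  refine ⟨M.charpoly.roots.toFinset.image fun x => (-x)⁻¹, ?_, ?_⟩
  · have h0 : M.charpoly ≠ 0 := M.charpoly_monic.ne_zero
    calc (M.charpoly.roots.toFinset.image fun x => (-x)⁻¹).card
        ≤ M.charpoly.roots.toFinset.card := Finset.card_image_le
      _ ≤ Multiset.card M.charpoly.roots := Multiset.toFinset_card_le _
      _ ≤ M.charpoly.natDegree := M.charpoly.card_roots'
      _ = finrank F U := M.charpoly_natDegree
      _ ≤ finrank F E := Submodule.finrank_le U
  · intro t ht
    by_cases ht0 : t = 0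
    · rw [ht0, zero_smul, add_zero]
    by_contra hcon
    rw [not_le] at hcon
    have hker : LinearMap.ker (f + t • g) = LinearMap.ker (t⁻¹ • f + g) := by
      have h1 : f + t • g = t • (t⁻¹ • f + g) := by
        rw [smul_add, smul_smul, mul_inv_cancel₀ ht0, one_smul]
      rw [h1, LinearMap.ker_smul _ _ ht0]
    rw [hker] at hcon
    have h2 := hM t⁻¹ hcon
    refine ht ?_
    rw [Finset.mem_image]
    refine ⟨-t⁻¹, ?_, by rw [neg_neg, inv_inv]⟩
    rw [Multiset.mem_toFinset, Polynomial.mem_roots M.charpoly_monic.ne_zero]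
    exact (Module.End.hasEigenvalue_iff_isRoot_charpoly M _).1 h2

end Pool.Agent.H67.CUT
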