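import Pool.Agent.H67.CUT.ConeB
import Pool.Agent.H67.CUT.Semi

/-!
# CUT: the inequality for the bent module
-/

set_option autoImplicit false
set_option linter.unusedSectionVars false

open Finset

namespace Pool.Agent.H67.CUT

open Pool.Agent.H4.Singer3

section Dim

variable {F : Type} [Field F] {E E' : Type} [AddCommGroup E] [Module F E] [Module.Finite F E]
  [AddCommGroup E'] [Module F E'] [Module.Finite F E']

theorem hd_prod_le (Z B : Submodule F E) (Z' B' : Submodule F E') (hB : B ≤ Z)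
    (hB' : B' ≤ Z') : hd (Z.prod Z') (B.prod B') ≤ hd Z B + hd Z' B' := by
  refine hd_le (Z.prod Z') (B.prod B') Z B Z' B' (Submodule.prod_mono hB hB') hB hB'
    (LinearMap.snd F E E') (LinearMap.inl F E E') ?_ ?_ ?_ ?_
  · intro z hz
    exact hz.2
  · intro b hb
    exact hb.2
  · intro z hz hz'
    refine ⟨z.1, hz.1, ?_⟩
    rw [Submodule.mem_prod]
    constructor
    · simp
    · simpa using hz'
  · intro b hb
    rw [Submodule.mem_prod]
    exact ⟨by simpa using hb, by simp⟩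

theorem finrank_ker_sub (A : Submodule F E) (D : E →ₗ[F] E') :
    Module.finrank F (LinearMap.ker (D ∘ₗ A.subtype)) = Module.finrank F (A ⊓ LinearMap.ker D :
      Submodule F E) := by
  rw [LinearMap.ker_comp, ← Submodule.finrank_map_subtype_eq, Submodule.map_comap_subtype]

theorem finrank_map_sub (A : Submodule F E) (D : E →ₗ[F] E') :
    Module.finrank F (A.map D) + Module.finrank F (A ⊓ LinearMap.ker D : Submodule F E) =
      Module.finrank F A := by
  have h := LinearMap.finrank_range_add_finrank_ker (D ∘ₗ A.subtype)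
  rw [LinearMap.range_comp, Submodule.range_subtype, finrank_ker_sub] at h
  exact h

/-- semicontinuity of the homology -/
theorem fam_le (A A' : Submodule F E) (D e : E →ₗ[F] E) :
    ∃ T : Finset F, T.card ≤ 2 * Module.finrank F E ∧ ∀ t, t ∉ T →
      hd (A ⊓ LinearMap.ker (D + t • e)) (A'.map (D + t • e)) ≤
        hd (A ⊓ LinearMap.ker D) (A'.map D) := by
  classical
  obtain ⟨T₁, h1, h2⟩ := card_bad (D ∘ₗ A.subtype) (e ∘ₗ A.subtype)
  obtain ⟨T₂, h3, h4⟩ := card_bad (D ∘ₗ A'.subtype) (e ∘ₗ A'.subtype)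
  refine ⟨T₁ ∪ T₂, ?_, fun t ht => ?_⟩
  · have h5 := Finset.card_union_le T₁ T₂
    have h6 := Submodule.finrank_le A
    have h7 := Submodule.finrank_le A'
    omega
  · rw [mem_union, not_or] at ht
    have h5 := h2 t ht.1
    have h6 := h4 t ht.2
    have e1 : D ∘ₗ A.subtype + t • (e ∘ₗ A.subtype) = (D + t • e) ∘ₗ A.subtype := by
      ext x
      rfl
    have e2 : D ∘ₗ A'.subtype + t • (e ∘ₗ A'.subtype) = (D + t • e) ∘ₗ A'.subtype := by
      ext x
      rfl
    rw [e1, finrank_ker_sub, finrank_ker_sub] at h5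
    rw [e2, finrank_ker_sub, finrank_ker_sub] at h6
    have h7 := finrank_map_sub A' (D + t • e)
    have h8 := finrank_map_sub A' D
    unfold hd
    omega

end Dim

variable {V : Type} [DecidableEq V] [Fintype V] {G : SimpleGraph V} {F : Type} [Field F]
  [CharP F 2] {M : Type} [AddCommGroup M] [Module F M] [Module.Finite F M]

theorem cone_bound (X : MAct G univ F M) {U W : Finset V} {c : V} (hcU : c ∉ U) (hcW : c ∉ W)
    (hno : ∀ x ∈ U, x ∉ W → ∀ y ∈ W, y ∉ U → ¬ G.Adj x y)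
    (hc : ∀ x ∈ U ∪ W, (G.Adj c x ↔ x ∈ U ∩ W)) (i : ℕ) :
    ∃ T : Finset F, T.card ≤ 2 * Module.finrank F ((Finset V → M) × (Finset V → M)) ∧
      ∀ t, t ∉ T → t ≠ 0 → betM (bend X.r U W c t) (KU G (U ∪ W)) i ≤
        betM X.r (KU G (insert c U)) i + betM X.r (KU G (insert c W)) i := by
  classical
  let D₀ : (Finset V → M) × (Finset V → M) →ₗ[F] (Finset V → M) × (Finset V → M) :=
    (bM F M).prodMap (bM F M)
  let e : (Finset V → M) × (Finset V → M) →ₗ[F] (Finset V → M) × (Finset V → M) :=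
    (pw (X.th c) ∘ₗ (lkM F c).coprod (lkM F c)).prod (pw (X.th c) ∘ₗ (lkM F c).coprod (lkM F c))
  obtain ⟨T, hT, h⟩ := fam_le (EE G X.r U W c i) (EE G X.r U W c (i + 1)) D₀ e
  refine ⟨T, hT, fun t ht ht0 => ?_⟩
  have h1 := h t ht
  have hdT : dT (X.th c) c t = D₀ + t • e := rfl
  rw [← hdT] at h1
  have h2 : betM (bend X.r U W c t) (KU G (U ∪ W)) i ≤
      hd (EE G X.r U W c i ⊓ LinearMap.ker (dT (X.th c) c t))
        ((EE G X.r U W c (i + 1)).map (dT (X.th c) c t)) := by
    refine hd_le_of_surj _ _ _ _ (BM_le_ZM _ (KU_down' G _) _) ?_ (Phi (X.r c) c t) ?_ ?_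
    · rintro _ ⟨f, hf, rfl⟩
      refine ⟨dT_mem X hc t hf, ?_⟩
      rw [SetLike.mem_coe, LinearMap.mem_ker]
      exact dT_dT _ _ _ _
    · intro z hz
      obtain ⟨f, hf, hf0, hfz⟩ := Phi_surj X hcU hcW hno hc ht0 hz
      refine ⟨f, ⟨hf, ?_⟩, ?_⟩
      · rw [SetLike.mem_coe, LinearMap.mem_ker]
        exact hf0
      · rw [hfz, sub_self]
        exact Submodule.zero_mem _
    · rintro _ ⟨f, hf, rfl⟩
      exact ⟨Phi (X.r c) c t f, Phi_mem X hcU hcW hc t hf, (Phi_dT X hc ht0 hf).symm⟩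
  have h3 : hd (EE G X.r U W c i ⊓ LinearMap.ker D₀) ((EE G X.r U W c (i + 1)).map D₀) ≤
      betM X.r (KU G (insert c U)) i + betM X.r (KU G (insert c W)) i := by
    have e1 : EE G X.r U W c i ⊓ LinearMap.ker D₀ =
        (ZM X.r (KU G (insert c U)) i).prod (ZM X.r (KU G (insert c W)) i) := by
      ext f
      constructor
      · rintro ⟨⟨a1, a2⟩, a3⟩
        have a4 : D₀ f = 0 := a3
        exact ⟨⟨a1, congrArg Prod.fst a4⟩, ⟨a2, congrArg Prod.snd a4⟩⟩
      · rintro ⟨⟨a1, a2⟩, ⟨a3, a4⟩⟩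
        exact ⟨⟨a1, a3⟩, Prod.ext a2 a4⟩
    have e2 : (EE G X.r U W c (i + 1)).map D₀ =
        (BM X.r (KU G (insert c U)) i).prod (BM X.r (KU G (insert c W)) i) := by
      ext f
      constructor
      · rintro ⟨y, ⟨a1, a2⟩, rfl⟩
        exact ⟨⟨y.1, a1, rfl⟩, ⟨y.2, a2, rfl⟩⟩
      · rintro ⟨⟨y1, a1, a2⟩, ⟨y2, a3, a4⟩⟩
        exact ⟨(y1, y2), ⟨a1, a3⟩, Prod.ext a2 a4⟩
    rw [e1, e2]
    exact hd_prod_le _ _ _ _ (BM_le_ZM _ (KU_down' G _) _) (BM_le_ZM _ (KU_down' G _) _)
  omega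

/-- the bent action -/
def bendAct (X : MAct G univ F M) {U W : Finset V} {c : V} (hcU : c ∉ U) (hcW : c ∉ W)
    (hno : ∀ x ∈ U, x ∉ W → ∀ y ∈ W, y ∉ U → ¬ G.Adj x y)
    (hc : ∀ x ∈ U ∪ W, (G.Adj c x ↔ x ∈ U ∩ W)) (t : F) : MAct G (U ∪ W) F M where
  r := bend X.r U W c t
  invol v _ m := by
    have hρ : ∀ m, X.r c (X.r c m) = m := X.invol c (mem_univ _)
    unfold bend
    split_ifs with h1 h2
    · change gT (X.r c) t (X.r v (gT (X.r c) t (gT (X.r c) t (X.r v (gT (X.r c) t m))))) = m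
      rw [gT_gT hρ, X.invol v (mem_univ _), gT_gT hρ]
    · exact X.invol v (mem_univ _) m
    · rfl
  comm u hu v hv huv m := by
    have hρ : ∀ m, X.r c (X.r c m) = m := X.invol c (mem_univ _)
    have hW : ∀ v ∈ W, ∀ m, bend X.r U W c t v m = gT (X.r c) t (X.r v (gT (X.r c) t m)) := by
      intro v hv m
      unfold bend
      rw [if_pos hv]
      rfl
    have hU : ∀ v ∈ U, (v ∈ W ∨ v ∉ W) → ∀ m, bend X.r U W c t v m = X.r v m := by
      intro v hv _ m
      by_cases hvW : v ∈ W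
      · exact bend_inter X hc t (mem_inter.2 ⟨hv, hvW⟩) m
      · unfold bend
        rw [if_neg hvW, if_pos hv]
    have hcase : (u ∈ W ∧ v ∈ W) ∨ (u ∈ U ∧ v ∈ U) := by
      by_contra hcon
      rw [not_or, not_and_or, not_and_or] at hcon
      rw [mem_union] at hu hv
      rcases hcon with ⟨h1 | h1, h2 | h2⟩
      · tauto
      · exact hno u (by tauto) h1 v (by tauto) h2 huv
      · exact hno v (by tauto) h1 u (by tauto) h2 huv.symm
      · tauto
    rcases hcase with ⟨h1, h2⟩ | ⟨h1, h2⟩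
    · rw [hW u h1, hW v h2, hW v h2, hW u h1, gT_gT hρ, gT_gT hρ,
        X.comm u (mem_univ _) v (mem_univ _) huv]
    · rw [hU u h1 (em _), hU v h2 (em _), hU v h2 (em _), hU u h1 (em _),
        X.comm u (mem_univ _) v (mem_univ _) huv]
  th := X.th
  th_self v hv m := by
    have hρ : ∀ m, X.r c (X.r c m) = m := X.invol c (mem_univ _)
    have hvc : c ≠ v := by
      rintro rfl
      rw [mem_union] at hv
      exact hv.elim hcU hcW
    unfold bend
    split_ifs with h1 h2
    · have hg : ∀ m, X.th v (gT (X.r c) t m) = gT (X.r c) t (X.th v m) :=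
        gT_comm (fun m => X.th_comm c (mem_univ _) v (mem_univ _) hvc m) t
      change X.th v m + gT (X.r c) t (X.r v (gT (X.r c) t (X.th v (gT (X.r c) t
        (X.r v (gT (X.r c) t m)))))) = m
      rw [hg, gT_gT hρ]
      have h3 := X.th_self v (mem_univ _) (gT (X.r c) t m)
      calc X.th v m + gT (X.r c) t (X.r v (X.th v (X.r v (gT (X.r c) t m))))
          = gT (X.r c) t (X.th v (gT (X.r c) t m) +
              X.r v (X.th v (X.r v (gT (X.r c) t m)))) := by
            rw [map_add, hg, gT_gT hρ]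
        _ = m := by rw [h3, gT_gT hρ]
    · exact X.th_self v (mem_univ _) m
    · rw [mem_union] at hv
      exact absurd hv (by tauto)
  th_comm u hu v hv huv m := by
    have hvc : c ≠ v := by
      rintro rfl
      rw [mem_union] at hv
      exact hv.elim hcU hcW
    unfold bend
    split_ifs with h1 h2
    · have hg : ∀ m, X.th v (gT (X.r c) t m) = gT (X.r c) t (X.th v m) :=
        gT_comm (fun m => X.th_comm c (mem_univ _) v (mem_univ _) hvc m) t
      change X.th v (gT (X.r c) t (X.r u (gT (X.r c) t m))) =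
        gT (X.r c) t (X.r u (gT (X.r c) t (X.th v m)))
      rw [hg, X.th_comm u (mem_univ _) v (mem_univ _) huv, hg]
    · exact X.th_comm u (mem_univ _) v (mem_univ _) huv m
    · rfl

end Pool.Agent.H67.CUT
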