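import Pool.Agent.H67.CUT.Cx

/-!
# CUT: half exactness
-/

set_option autoImplicit false
set_option linter.unusedSectionVars false

open Finset

namespace Pool.Agent.H67.CUT

open Pool.Agent.H4.Singer3

variable {V : Type} [DecidableEq V] [Fintype V] {G : SimpleGraph V} {K : Type} [Field K]
  [CharP K 2]

variable {M₀ M₁ M₂ : Type} [AddCommGroup M₀] [Module K M₀] [AddCommGroup M₁] [Module K M₁]
  [AddCommGroup M₂] [Module K M₂]

/-- A surjection which commutes with the involutions and the halves is surjective on the invariants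
of every clique.

Induction on the clique `σ` (`Finset.induction_on`), for all `m`: for `insert v σ` take `m₁` for `σ`
and `m`, and put `m₁' = th v m₁ + r v (th v m₁)`. It is invariant under `v` (`invol`), under `u ∈ σ`
(`comm`, `th_comm`), and `N m₁' = th v m + r v (th v m) = th v m + r v (th v (r v m)) = m`. -/
theorem lift_inv {A : Finset V} (X₁ : MAct G A K M₁) (X₂ : MAct G A K M₂) (N : M₁ →ₗ[K] M₂)
    (hN : Function.Surjective N) (hr : ∀ v m, N (X₁.r v m) = X₂.r v (N m))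
    (ht : ∀ v m, N (X₁.th v m) = X₂.th v (N m)) (σ : Finset V) (hσA : σ ⊆ A)
    (hσ : G.IsClique (σ : Set V)) :
    ∀ m : M₂, (∀ v ∈ σ, X₂.r v m = m) → ∃ m₁ : M₁, (∀ v ∈ σ, X₁.r v m₁ = m₁) ∧ N m₁ = m := by
  induction σ using Finset.induction_on with
  | empty =>
    intro m _
    obtain ⟨m₁, hm₁⟩ := hN m
    exact ⟨m₁, fun v hv => absurd hv (Finset.notMem_empty v), hm₁⟩
  | insert v σ hv ih =>
    intro m hm
    have hvA : v ∈ A := hσA (Finset.mem_insert_self v σ)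
    have hσ' : G.IsClique (σ : Set V) := hσ.subset (by
      intro u hu
      exact Finset.mem_coe.2 (Finset.mem_insert_of_mem (Finset.mem_coe.1 hu)))
    obtain ⟨m₁, h1, h2⟩ := ih (fun u hu => hσA (Finset.mem_insert_of_mem hu)) hσ' m fun u hu => hm u (Finset.mem_insert_of_mem hu)
    refine ⟨X₁.th v m₁ + X₁.r v (X₁.th v m₁), ?_, ?_⟩
    · intro u hu
      rcases Finset.mem_insert.1 hu with rfl | hu'
      · rw [map_add, X₁.invol _ hvA, add_comm]
      · have huv : u ≠ v := by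
          rintro rfl
          exact hv hu'
        have hadj : G.Adj u v := hσ (Finset.mem_coe.2 (Finset.mem_insert_of_mem hu'))
          (Finset.mem_coe.2 (Finset.mem_insert_self v σ)) huv
        have h3 : X₁.r u (X₁.th v m₁) = X₁.th v m₁ := by
          rw [← X₁.th_comm u (hσA hu) v hvA huv, h1 u hu']
        rw [map_add, X₁.comm u (hσA hu) v hvA hadj, h3]
    · rw [map_add, hr, ht, h2]
      have h3 := X₂.th_self v hvA m
      rwa [hm v (Finset.mem_insert_self v σ)] at h3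

/-- Half exactness. `hd_le` with `ψ = N` and `φ = ι` (applied to the values). For the third
condition: if `N z = bM y` with a chain `y` of `M₂`, lift `y` to a chain `y₁` of `M₁` (`lift_inv` for
every `σ`, and `0` for the `σ` with `y σ = 0`); then `N (z - bM y₁) = 0`, so it is `ι z₀` with values
`z₀ σ`; `z₀` is a cycle since `ι` is injective; in characteristic two the signs do not matter. -/
theorem betM_half {A : Finset V} [Module.Finite K M₀] [Module.Finite K M₁] [Module.Finite K M₂]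
    (X₀ : MAct G A K M₀) (X₁ : MAct G A K M₁) (X₂ : MAct G A K M₂) (ι : M₀ →ₗ[K] M₁)
    (N : M₁ →ₗ[K] M₂)
    (hι : Function.Injective ι) (hιr : ∀ v m, ι (X₀.r v m) = X₁.r v (ι m))
    (hN : Function.Surjective N) (hNr : ∀ v m, N (X₁.r v m) = X₂.r v (N m))
    (hNt : ∀ v m, N (X₁.th v m) = X₂.th v (N m)) (hex : ∀ m, N m = 0 → ∃ m₀, ι m₀ = m)
    (hN0 : ∀ m, N (ι m) = 0) {𝒦 : Finset V → Prop} (h𝒦 : ∀ σ, 𝒦 σ → ∀ τ ⊆ σ, 𝒦 τ)
    (hcl : ∀ σ, 𝒦 σ → G.IsClique (σ : Set V)) (hA : ∀ σ, 𝒦 σ → σ ⊆ A) (i : ℕ) :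
    betM X₁.r 𝒦 i ≤ betM X₀.r 𝒦 i + betM X₂.r 𝒦 i := by
  classical
  have hψ : ∀ f : Finset V → M₁, N.compLeft (Finset V) (bM K M₁ f) =
      bM K M₂ (N.compLeft (Finset V) f) := by
    intro f
    funext τ
    show N (∑ v ∈ τᶜ, f (insert v τ)) = ∑ v ∈ τᶜ, N (f (insert v τ))
    exact map_sum N _ _
  have hφ : ∀ f : Finset V → M₀, ι.compLeft (Finset V) (bM K M₀ f) =
      bM K M₁ (ι.compLeft (Finset V) f) := by
    intro f
    funext τ
    show ι (∑ v ∈ τᶜ, f (insert v τ)) = ∑ v ∈ τᶜ, ι (f (insert v τ))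
    exact map_sum ι _ _
  have hψ_mem : ∀ (j : ℕ) (f : Finset V → M₁), f ∈ CM X₁.r 𝒦 j →
      N.compLeft (Finset V) f ∈ CM X₂.r 𝒦 j := by
    intro j f hf
    rw [mem_CM] at hf ⊢
    refine ⟨fun σ h => hf.1 σ fun h0 => h ?_, fun σ v hv => ?_⟩
    · show N (f σ) = 0
      rw [h0, map_zero]
    · show X₂.r v (N (f σ)) = N (f σ)
      rw [← hNr, hf.2 σ v hv]
  have hφ_mem : ∀ (j : ℕ) (f : Finset V → M₀), f ∈ CM X₀.r 𝒦 j →
      ι.compLeft (Finset V) f ∈ CM X₁.r 𝒦 j := by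
    intro j f hf
    rw [mem_CM] at hf ⊢
    refine ⟨fun σ h => hf.1 σ fun h0 => h ?_, fun σ v hv => ?_⟩
    · show ι (f σ) = 0
      rw [h0, map_zero]
    · show X₁.r v (ι (f σ)) = ι (f σ)
      rw [← hιr, hf.2 σ v hv]
  -- lifts of chains
  have hlift : ∀ (j : ℕ) (f : Finset V → M₂), f ∈ CM X₂.r 𝒦 j →
      ∃ g ∈ CM X₁.r 𝒦 j, N.compLeft (Finset V) g = f := by
    intro j f hf
    rw [mem_CM] at hf
    have h1 : ∀ σ : Finset V, ∃ m₁ : M₁, (f σ = 0 → m₁ = 0) ∧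
        (∀ v ∈ σ, X₁.r v m₁ = m₁) ∧ N m₁ = f σ := by
      intro σ
      by_cases h0 : f σ = 0
      · exact ⟨0, fun _ => rfl, fun v _ => map_zero _, by rw [h0, map_zero]⟩
      · obtain ⟨m₁, h2, h3⟩ := lift_inv X₁ X₂ N hN hNr hNt σ (hA σ (hf.1 σ h0).1)
          (hcl σ (hf.1 σ h0).1) (f σ)
          (hf.2 σ)
        exact ⟨m₁, fun h => absurd h h0, h2, h3⟩
    choose g hg0 hg1 hg2 using h1
    refine ⟨g, ?_, funext hg2⟩
    rw [mem_CM]
    exact ⟨fun σ h => hf.1 σ fun h0 => h (hg0 σ h0), hg1⟩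
  unfold betM
  refine hd_le (ZM X₁.r 𝒦 i) (BM X₁.r 𝒦 i) (ZM X₀.r 𝒦 i) (BM X₀.r 𝒦 i) (ZM X₂.r 𝒦 i)
    (BM X₂.r 𝒦 i) (BM_le_ZM X₁.r h𝒦 i) (BM_le_ZM X₀.r h𝒦 i) (BM_le_ZM X₂.r h𝒦 i)
    (N.compLeft (Finset V)) (ι.compLeft (Finset V)) ?_ ?_ ?_ ?_
  · intro z hz
    rw [mem_ZM] at hz ⊢
    exact ⟨hψ_mem i z hz.1, by rw [← hψ, hz.2, map_zero]⟩
  · rintro _ ⟨y, hy, rfl⟩
    exact ⟨_, hψ_mem _ y hy, (hψ y).symm⟩
  · intro z hz hzB
    rw [mem_ZM] at hz
    obtain ⟨y'', hy'', hyz⟩ := hzB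
    obtain ⟨y, hy, hyy⟩ := hlift (i + 1) y'' hy''
    have hker : ∀ σ, N ((z - bM K M₁ y) σ) = 0 := by
      intro σ
      have h1 : N.compLeft (Finset V) (z - bM K M₁ y) = 0 := by
        rw [map_sub, hψ, hyy, hyz, sub_self]
      exact congrFun h1 σ
    have hmem : z - bM K M₁ y ∈ CM X₁.r 𝒦 i :=
      Submodule.sub_mem _ hz.1 (bM_mem_CM X₁.r h𝒦 hy)
    choose z₀ hz₀ using fun σ => hex _ (hker σ)
    have hz₀' : ι.compLeft (Finset V) z₀ = z - bM K M₁ y := funext hz₀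
    have hinj : ∀ f : Finset V → M₀, ι.compLeft (Finset V) f = 0 → f = 0 := by
      intro f hf
      funext σ
      apply hι
      rw [Pi.zero_apply, map_zero]
      exact congrFun hf σ
    refine ⟨z₀, ?_, ?_⟩
    · rw [mem_ZM, mem_CM]
      refine ⟨⟨fun σ h => ?_, fun σ v hv => ?_⟩, ?_⟩
      · rw [mem_CM] at hmem
        refine hmem.1 σ fun h0 => h ?_
        apply hι
        rw [hz₀ σ, h0, map_zero]
      · rw [mem_CM] at hmem
        apply hι
        rw [hιr, hz₀ σ, hmem.2 σ v hv]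
      · apply hinj
        rw [hφ, hz₀', map_sub, hz.2, bM_bM, sub_zero]
    · rw [hz₀', sub_sub_cancel_left]
      exact Submodule.neg_mem _ ⟨y, hy, rfl⟩
  · rintro _ ⟨y, hy, rfl⟩
    exact ⟨_, hφ_mem _ y hy, (hφ y).symm⟩

end Pool.Agent.H67.CUT
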