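import Mathlib

/-!
# CUT: the linear algebra

`finite_bad`: for all but finitely many `s` the kernel of `s f + g` is at most as large as the kernel of `f`.
`cut_bad`: for `N ^ 2 = 0` and all but finitely many `s`: `dim (A₁ ∩ (1 + s N) A₂) ≤ dim (A₁ ∩ ker N) + dim (A₂ ∩ ker N)`.
-/

set_option autoImplicit false

open Module

namespace Pool.Agent.H67.CUT

variable {K : Type*} [Field K]

theorem finite_bad {E E' : Type*} [AddCommGroup E] [Module K E] [FiniteDimensional K E]
    [AddCommGroup E'] [Module K E'] (f g : E →ₗ[K] E') :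
    {s : K | finrank K (LinearMap.ker f) < finrank K (LinearMap.ker (s • f + g))}.Finite := by
  classical
  obtain ⟨U, hU⟩ := Submodule.exists_isCompl (LinearMap.ker f)
  have hinj : LinearMap.ker (f.domRestrict U) = ⊥ := by
    rw [LinearMap.ker_eq_bot']
    intro u hu
    have h1 : (u : E) ∈ LinearMap.ker f := by
      rw [LinearMap.mem_ker]
      exact hu
    have h2 : (u : E) ∈ LinearMap.ker f ⊓ U := ⟨h1, u.2⟩
    rw [hU.inf_eq_bot, Submodule.mem_bot] at h2
    exact Subtype.ext h2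
  obtain ⟨p, hp⟩ := (f.domRestrict U).exists_leftInverse_of_injective hinj
  set M : Module.End K U := p ∘ₗ g.domRestrict U with hM
  refine (Set.Finite.preimage (f := fun s : K => -s) (neg_injective.injOn) M.finite_hasEigenvalue).subset ?_
  intro s hs
  change M.HasEigenvalue (-s)
  by_contra hcon
  have hdis : Disjoint (LinearMap.ker (s • f + g)) U := by
    rw [Submodule.disjoint_def]
    intro x hx hxU
    rw [LinearMap.mem_ker] at hx
    have h1 : s • f x + g x = 0 := hx
    have h2 : p (f x) = ⟨x, hxU⟩ := LinearMap.congr_fun hp ⟨x, hxU⟩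
    have h3 : M ⟨x, hxU⟩ = (-s) • (⟨x, hxU⟩ : U) := by
      have h4 : p (s • f x + g x) = 0 := by rw [h1, map_zero]
      rw [map_add, map_smul, h2] at h4
      change p (g x) = _
      rw [neg_smul]
      exact eq_neg_of_add_eq_zero_right h4
    by_contra hx0
    refine hcon ?_
    refine Module.End.hasEigenvalue_of_hasEigenvector (x := ⟨x, hxU⟩) ?_
    refine ⟨Module.End.mem_eigenspace_iff.2 h3, ?_⟩
    intro h5
    exact hx0 (congrArg Subtype.val h5)
  have h1 := Submodule.finrank_add_finrank_le_of_disjoint hdis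
  have h2 := Submodule.finrank_add_eq_of_isCompl hU
  have h3 : finrank K (LinearMap.ker f) < finrank K (LinearMap.ker (s • f + g)) := hs
  omega

theorem cut_bad {H : Type*} [AddCommGroup H] [Module K H] [FiniteDimensional K H]
    (A₁ A₂ : Submodule K H) (N : H →ₗ[K] H) (hN : ∀ x, N (N x) = 0) :
    {s : K | finrank K ↥(A₁ ⊓ LinearMap.ker N) + finrank K ↥(A₂ ⊓ LinearMap.ker N) <
      finrank K ↥(A₁ ⊓ A₂.map (LinearMap.id + s • N))}.Finite := by
  classical
  -- the linear system: `N a₁ = N a₂`, `a₁ - a₂ = s N a₂`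
  let ι₁ : (A₁ × A₂) →ₗ[K] H := A₁.subtype ∘ₗ LinearMap.fst K A₁ A₂
  let ι₂ : (A₁ × A₂) →ₗ[K] H := A₂.subtype ∘ₗ LinearMap.snd K A₁ A₂
  let f : (A₁ × A₂) →ₗ[K] H × H := LinearMap.prod (N ∘ₗ ι₂) (N ∘ₗ (ι₁ - ι₂))
  let g : (A₁ × A₂) →ₗ[K] H × H := LinearMap.prod (ι₂ - ι₁) 0
  have hbad := finite_bad f g
  refine (hbad.union (Set.finite_singleton (0 : K))).subset ?_
  intro s hs
  by_cases hs0 : s = 0
  · exact Or.inr hs0
  refine Or.inl ?_
  change finrank K (LinearMap.ker f) < finrank K (LinearMap.ker (s • f + g))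
  -- the kernel of `f`
  have h1 : finrank K (LinearMap.ker f) ≤ finrank K ↥(A₁ ⊓ LinearMap.ker N) + finrank K ↥(A₂ ⊓ LinearMap.ker N) := by
    rw [← Module.finrank_prod]
    let j : LinearMap.ker f →ₗ[K] ↥(A₁ ⊓ LinearMap.ker N) × ↥(A₂ ⊓ LinearMap.ker N) :=
      LinearMap.prod
        (LinearMap.codRestrict _ (ι₁ ∘ₗ (LinearMap.ker f).subtype) (fun x => ⟨x.1.1.2, by
          have h2 : f x.1 = 0 := x.2
          have h3 : N ((x.1.1 : H) - x.1.2) = 0 := congrArg Prod.snd h2
          have h4 : N (x.1.2 : H) = 0 := congrArg Prod.fst h2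
          rw [map_sub, h4, sub_zero] at h3
          exact h3⟩))
        (LinearMap.codRestrict _ (ι₂ ∘ₗ (LinearMap.ker f).subtype) (fun x => ⟨x.1.2.2, by
          have h2 : f x.1 = 0 := x.2
          exact (congrArg Prod.fst h2 : N (x.1.2 : H) = 0)⟩))
    refine LinearMap.finrank_le_finrank_of_injective (f := j) ?_
    intro x y hxy
    have h3 : (x.1.1 : H) = y.1.1 := congrArg (fun z : ↥(A₁ ⊓ LinearMap.ker N) × ↥(A₂ ⊓ LinearMap.ker N) => (z.1 : H)) hxy
    have h4 : (x.1.2 : H) = y.1.2 := congrArg (fun z : ↥(A₁ ⊓ LinearMap.ker N) × ↥(A₂ ⊓ LinearMap.ker N) => (z.2 : H)) hxy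
    exact Subtype.ext (Prod.ext (Subtype.ext h3) (Subtype.ext h4))
  -- the intersection embeds in the kernel of `s f + g`
  have h2 : finrank K ↥(A₁ ⊓ A₂.map (LinearMap.id + s • N)) ≤ finrank K (LinearMap.ker (s • f + g)) := by
    let q : LinearMap.ker (s • f + g) →ₗ[K] H := ι₁ ∘ₗ (LinearMap.ker (s • f + g)).subtype
    have h3 : A₁ ⊓ A₂.map (LinearMap.id + s • N) ≤ LinearMap.range q := by
      rintro x ⟨hx1, y, hy, rfl⟩
      refine ⟨⟨(⟨_, hx1⟩, ⟨y, hy⟩), ?_⟩, rfl⟩
      rw [LinearMap.mem_ker]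
      refine Prod.ext ?_ ?_
      · change s • N y + (y - (y + s • N y)) = 0
        abel
      · change s • N ((y + s • N y) - y) + 0 = 0
        rw [add_sub_cancel_left, map_smul, hN, smul_zero, smul_zero, add_zero]
    exact (Submodule.finrank_mono h3).trans (LinearMap.finrank_range_le q)
  exact (h1.trans_lt hs).trans_le h2

end Pool.Agent.H67.CUT
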