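import Pool.Agent.H67.CUT.Cx

/-!
# CUT: operators on the chains with values in a module
-/

set_option autoImplicit false
set_option linter.unusedSectionVars false

open Finset

namespace Pool.Agent.H67.CUT

open Pool.Agent.H4.Singer3

variable {V : Type} [DecidableEq V] [Fintype V] {K : Type} [Field K]
  {M : Type} [AddCommGroup M] [Module K M]

/-- the cone with vertex `w` -/
def cnM (K : Type) [Field K] {M : Type} [AddCommGroup M] [Module K M] (w : V) :
    (Finset V → M) →ₗ[K] (Finset V → M) where
  toFun f σ := if w ∈ σ then f (σ.erase w) else 0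
  map_add' f g := by
    funext σ
    simp only [Pi.add_apply]
    split_ifs <;> simp
  map_smul' c f := by
    funext σ
    simp only [Pi.smul_apply, RingHom.id_apply]
    split_ifs <;> simp

/-- the link part at `w` -/
def lkM (K : Type) [Field K] {M : Type} [AddCommGroup M] [Module K M] (w : V) :
    (Finset V → M) →ₗ[K] (Finset V → M) where
  toFun f σ := if w ∈ σ then 0 else f (insert w σ)
  map_add' f g := by
    funext σ
    simp only [Pi.add_apply]
    split_ifs <;> simp
  map_smul' c f := by
    funext σ
    simp only [Pi.smul_apply, RingHom.id_apply]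
    split_ifs <;> simp

/-- the part away from `w` -/
def dlM (K : Type) [Field K] {M : Type} [AddCommGroup M] [Module K M] (w : V) :
    (Finset V → M) →ₗ[K] (Finset V → M) where
  toFun f σ := if w ∈ σ then 0 else f σ
  map_add' f g := by
    funext σ
    simp only [Pi.add_apply]
    split_ifs <;> simp
  map_smul' c f := by
    funext σ
    simp only [Pi.smul_apply, RingHom.id_apply]
    split_ifs <;> simp

/-- the part supported on the simplices in `𝒜` -/
def rsM (K : Type) [Field K] {M : Type} [AddCommGroup M] [Module K M] (𝒜 : Finset V → Prop)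
    [DecidablePred 𝒜] : (Finset V → M) →ₗ[K] (Finset V → M) where
  toFun f σ := if 𝒜 σ then f σ else 0
  map_add' f g := by
    funext σ
    simp only [Pi.add_apply]
    split_ifs <;> simp
  map_smul' c f := by
    funext σ
    simp only [Pi.smul_apply, RingHom.id_apply]
    split_ifs <;> simp

theorem cnM_apply (w : V) (f : Finset V → M) (σ : Finset V) :
    cnM K w f σ = if w ∈ σ then f (σ.erase w) else 0 := rfl

theorem lkM_apply (w : V) (f : Finset V → M) (σ : Finset V) :
    lkM K w f σ = if w ∈ σ then 0 else f (insert w σ) := rfl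

theorem dlM_apply (w : V) (f : Finset V → M) (σ : Finset V) :
    dlM K w f σ = if w ∈ σ then 0 else f σ := rfl

theorem rsM_apply (𝒜 : Finset V → Prop) [DecidablePred 𝒜] (f : Finset V → M) (σ : Finset V) :
    rsM K 𝒜 f σ = if 𝒜 σ then f σ else 0 := rfl

/-- a linear map applied to the values -/
def pw (φ : M →ₗ[K] M) : (Finset V → M) →ₗ[K] (Finset V → M) := φ.compLeft (Finset V)

theorem pw_apply (φ : M →ₗ[K] M) (f : Finset V → M) (σ : Finset V) : pw φ f σ = φ (f σ) := rfl

theorem bM_pw (φ : M →ₗ[K] M) (f : Finset V → M) : bM K M (pw φ f) = pw φ (bM K M f) := by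
  funext τ
  rw [bM_apply, pw_apply, bM_apply, map_sum]
  rfl

theorem dlM_pw (w : V) (φ : M →ₗ[K] M) (f : Finset V → M) :
    dlM K w (pw φ f) = pw φ (dlM K w f) := by
  funext τ
  simp only [pw_apply, dlM_apply]
  split_ifs <;> simp

theorem lkM_pw (w : V) (φ : M →ₗ[K] M) (f : Finset V → M) :
    lkM K w (pw φ f) = pw φ (lkM K w f) := by
  funext τ
  simp only [pw_apply, lkM_apply]
  split_ifs <;> simp

theorem addM_self (K : Type) [Field K] [CharP K 2] {M : Type} [AddCommGroup M] [Module K M]
    (m : M) : m + m = 0 := by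
  have h : (2 : K) • m = 0 := by rw [CharTwo.two_eq_zero, zero_smul]
  rwa [two_smul] at h

/-- the boundary of a cone -/
theorem bM_cnM (w : V) (f : Finset V → M) (hf : dlM K w f = f) :
    bM K M (cnM K w f) = f + cnM K w (bM K M f) := by
  have hf0 : ∀ σ, w ∈ σ → f σ = 0 := by
    intro σ h
    rw [← hf, dlM_apply, if_pos h]
  funext τ
  simp only [Pi.add_apply, cnM_apply, bM_apply]
  by_cases h : w ∈ τ
  · rw [hf0 τ h, zero_add, if_pos h]
    have h1 : (τ.erase w)ᶜ = insert w τᶜ := by
      ext x
      simp only [mem_compl, mem_erase, mem_insert, not_and_or, not_not]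
    rw [h1, Finset.sum_insert (by simp [h]), hf0 _ (mem_insert_self _ _), zero_add]
    refine Finset.sum_congr rfl fun v hv => ?_
    rw [mem_compl] at hv
    rw [if_pos (mem_insert_of_mem h), Finset.erase_insert_of_ne (fun h2 => hv (by rw [h2]; exact h))]
  · rw [if_neg h, add_zero, Finset.sum_eq_single w]
    · rw [if_pos (mem_insert_self _ _), Finset.erase_insert h]
    · intro v hv hne
      rw [if_neg]
      rw [mem_insert, not_or]
      exact ⟨fun h2 => hne h2.symm, h⟩
    · intro h2
      exact absurd (mem_compl.2 h) h2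

/-- the boundary away from `w` -/
theorem dlM_bM (w : V) (f : Finset V → M) :
    dlM K w (bM K M f) = bM K M (dlM K w f) + lkM K w f := by
  funext τ
  simp only [Pi.add_apply, dlM_apply, bM_apply, lkM_apply]
  by_cases h : w ∈ τ
  · rw [if_pos h, if_pos h, add_zero, Finset.sum_eq_zero]
    intro v _
    rw [if_pos (mem_insert_of_mem h)]
  · rw [if_neg h, if_neg h, ← Finset.sum_erase_add _ _ (mem_compl.2 h),
      ← Finset.sum_erase_add (a := w) _ _ (mem_compl.2 h)]
    rw [if_pos (mem_insert_self _ _), add_zero]
    congr 1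
    refine Finset.sum_congr rfl fun v hv => ?_
    rw [mem_erase] at hv
    rw [if_neg]
    rw [mem_insert, not_or]
    exact ⟨fun h2 => hv.1 h2.symm, h⟩

/-- the link part of the boundary -/
theorem lkM_bM (w : V) (f : Finset V → M) :
    lkM K w (bM K M f) = bM K M (lkM K w f) := by
  funext τ
  simp only [bM_apply, lkM_apply]
  by_cases h : w ∈ τ
  · rw [if_pos h, Finset.sum_eq_zero]
    intro v _
    rw [if_pos (mem_insert_of_mem h)]
  · rw [if_neg h, ← Finset.sum_erase_add (a := w) τᶜ _ (mem_compl.2 h),
      if_pos (mem_insert_self _ _), add_zero, Finset.compl_insert]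
    refine Finset.sum_congr rfl fun v hv => ?_
    rw [mem_erase] at hv
    rw [if_neg, Finset.insert_comm]
    rw [mem_insert, not_or]
    exact ⟨fun h2 => hv.1 h2.symm, h⟩

theorem dlM_lkM (w : V) (f : Finset V → M) : dlM K w (lkM K w f) = lkM K w f := by
  funext σ
  simp only [dlM_apply, lkM_apply]
  split_ifs <;> rfl

theorem lkM_cnM (w : V) (f : Finset V → M) : lkM K w (cnM K w f) = dlM K w f := by
  funext σ
  simp only [dlM_apply, lkM_apply, cnM_apply]
  by_cases h : w ∈ σ <;> simp [h]

theorem dlM_cnM (w : V) (f : Finset V → M) : dlM K w (cnM K w f) = 0 := by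
  funext σ
  simp only [dlM_apply, cnM_apply]
  by_cases h : w ∈ σ <;> simp [h]

end Pool.Agent.H67.CUT
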