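import Pool.Agent.H67.CUT.Half
import Mathlib.GroupTheory.PGroup

/-!
# CUT: functions on two-groups with values in a module
-/

set_option autoImplicit false
set_option linter.unusedSectionVars false

open Finset

namespace Pool.Agent.H67.CUT

open Pool.Agent.H4.Singer3

variable {V : Type} [DecidableEq V] [Fintype V] {G : SimpleGraph V} {K : Type} [Field K]
  [CharP K 2]

/-- a nontrivial finite two-group has a central element of order two -/
private theorem cutProd_central {P : Type} [Group P] [Fintype P] (hP : IsPGroup 2 P)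
    (hc : Fintype.card P ≠ 1) : ∃ z : P, z ≠ 1 ∧ z * z = 1 ∧ ∀ x, z * x = x * z := by
  haveI : Fact (Nat.Prime 2) := ⟨Nat.prime_two⟩
  haveI : Nontrivial P := by
    rw [← Fintype.one_lt_card_iff_nontrivial]
    have : 0 < Fintype.card P := Fintype.card_pos
    omega
  haveI := hP.center_nontrivial
  have h1 : 2 ∣ Nat.card (Subgroup.center P) := by
    rcases (hP.to_subgroup (Subgroup.center P)).card_eq_or_dvd with h | h
    · exact absurd h (by
        have := Finite.one_lt_card (α := Subgroup.center P)
        omega)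
    · exact h
  obtain ⟨c, hc2⟩ := exists_prime_orderOf_dvd_card' 2 h1
  have h2 : c ^ 2 = 1 := by rw [← hc2]; exact pow_orderOf_eq_one c
  have h3 : c ≠ 1 := by
    intro h
    rw [h, orderOf_one] at hc2
    exact absurd hc2 (by decide)
  refine ⟨c, fun h => h3 (Subtype.ext h), ?_, fun x => (Subgroup.mem_center_iff.1 c.2 x).symm⟩
  have := congrArg Subtype.val h2
  rwa [pow_two] at this

/-- the central subgroup `{1, z}` -/
private def cutProd_two {P : Type} [Group P] (z : P) (hz : z * z = 1) : Subgroup P where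
  carrier := {x | x = 1 ∨ x = z}
  mul_mem' := by
    rintro a b (rfl | rfl) (rfl | rfl)
    · exact Or.inl (mul_one _)
    · exact Or.inr (one_mul _)
    · exact Or.inr (mul_one _)
    · exact Or.inl hz
  one_mem' := Or.inl rfl
  inv_mem' := by
    rintro a (rfl | rfl)
    · exact Or.inl inv_one
    · exact Or.inr (inv_eq_of_mul_eq_one_left hz)

private theorem cutProd_mem_two {P : Type} [Group P] (z : P) (hz : z * z = 1) (x : P) :
    x ∈ cutProd_two z hz ↔ x = 1 ∨ x = z := Iff.rfl

private theorem cutProd_two_normal {P : Type} [Group P] (z : P) (hz : z * z = 1)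
    (hzc : ∀ x, z * x = x * z) : (cutProd_two z hz).Normal := by
  refine ⟨fun n hn x => ?_⟩
  rw [cutProd_mem_two] at hn ⊢
  rcases hn with rfl | rfl
  · left; group
  · right; rw [← hzc, mul_inv_cancel_right]

private theorem cutProd_card_two {P : Type} [Group P] (z : P) (hz : z * z = 1) (hz1 : z ≠ 1) :
    Nat.card (cutProd_two z hz) = 2 := by
  rw [Nat.card_eq_two_iff]
  refine ⟨⟨1, Or.inl rfl⟩, ⟨z, Or.inr rfl⟩, fun h => hz1 (congrArg Subtype.val h).symm, ?_⟩
  ext ⟨x, hx⟩
  simp only [Set.mem_insert_iff, Set.mem_singleton_iff, Set.mem_univ, iff_true, Subtype.mk.injEq]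
  exact hx

/-- composition with a map -/
private def cutProd_pull {M : Type} [AddCommGroup M] [Module K M] {Q Q' : Type} (p : Q → Q') :
    (Q' → M) →ₗ[K] (Q → M) where
  toFun φ q := φ (p q)
  map_add' _ _ := rfl
  map_smul' _ _ := rfl

/-- the sum over the two preimages -/
private def cutProd_push {M : Type} [AddCommGroup M] [Module K M] {Q Q' : Type} (s t : Q' → Q) :
    (Q → M) →ₗ[K] (Q' → M) where
  toFun φ x := φ (s x) + φ (t x)
  map_add' φ ψ := by
    funext x
    simp only [Pi.add_apply]
    abel
  map_smul' c φ := by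
    funext x
    simp only [Pi.smul_apply, RingHom.id_apply, smul_add]

private theorem cutProd_step {M : Type} [AddCommGroup M] [Module K M] [Module.Finite K M]
    {U : Finset V} (X : MAct G U K M) {Q Q' : Type} [Group Q] [Finite Q] [Group Q'] [Finite Q']
    (p : Q →* Q') (hp : Function.Surjective p) (z : Q) (hz1 : z ≠ 1) (hz : z * z = 1)
    (hfib : ∀ a b : Q, p a = p b ↔ b = a ∨ b = z * a) (g : V → Q) (g' : V → Q')
    (hgg : ∀ v, p (g v) = g' v)
    (hg : ∀ v, g v * g v = 1) (hgc : ∀ u v, G.Adj u v → g u * g v = g v * g u)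
    (hg' : ∀ v, g' v * g' v = 1) (hgc' : ∀ u v, G.Adj u v → g' u * g' v = g' v * g' u) (i : ℕ) :
    betM (prodM g hg hgc X).r (KU G U) i ≤ 2 * betM (prodM g' hg' hgc' X).r (KU G U) i := by
  classical
  obtain ⟨s, hs⟩ := hp.hasRightInverse
  have hs' : ∀ x, p (s x) = x := hs
  have hcc : ∀ a : M, a + a = 0 := fun a => by
    rw [← two_smul K a, CharTwo.two_eq_zero, zero_smul]
  have hpz : ∀ a, p (z * a) = p a := fun a => ((hfib a (z * a)).2 (Or.inr rfl)).symm
  have hzz : ∀ a, z * (z * a) = a := fun a => by rw [← mul_assoc, hz, one_mul]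
  have hne : ∀ a, z * a ≠ a := fun a h => hz1 (mul_eq_right.1 h)
  -- the value of the push forward
  have hpush : ∀ (φ : Q → M) (a : Q) (x : Q'), p a = x →
      φ (s x) + φ (z * s x) = φ a + φ (z * a) := by
    intro φ a x hax
    rcases (hfib a (s x)).1 (by rw [hs', hax]) with h | h
    · rw [h]
    · rw [h, hzz, add_comm]
  have h := betM_half (prodM g' hg' hgc' X) (prodM g hg hgc X) (prodM g' hg' hgc' X)
    (cutProd_pull (K := K) (M := M) p) (cutProd_push (K := K) (M := M) s (fun x => z * s x))
    ?_ ?_ ?_ ?_ ?_ ?_ ?_ (KU_down' G U) (fun σ hσ => hσ.2) (fun σ hσ => hσ.1) i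
  · omega
  · intro φ ψ hφ
    funext x
    have h1 := congrFun hφ (s x)
    change φ (p (s x)) = ψ (p (s x)) at h1
    rwa [hs'] at h1
  · intro v m
    funext q
    change X.r v (m (p q * g' v)) = X.r v (m (p (q * g v)))
    rw [map_mul, hgg]
  · intro ψ
    refine ⟨fun q => if q = s (p q) then ψ (p q) else 0, ?_⟩
    funext x
    change (if s x = s (p (s x)) then ψ (p (s x)) else 0) +
      (if z * s x = s (p (z * s x)) then ψ (p (z * s x)) else 0) = ψ x
    rw [hpz, hs', if_pos rfl, if_neg (hne (s x)), add_zero]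
  · intro v m
    funext x
    change X.r v (m (s x * g v)) + X.r v (m (z * s x * g v)) =
      X.r v (m (s (x * g' v)) + m (z * s (x * g' v)))
    rw [hpush m (s x * g v) (x * g' v) (by rw [map_mul, hs', hgg]), map_add, mul_assoc]
  · intro v m
    funext x
    change X.th v (m (s x)) + X.th v (m (z * s x)) = X.th v (m (s x) + m (z * s x))
    rw [map_add]
  · intro m hm
    refine ⟨fun x => m (s x), ?_⟩
    funext q
    change m (s (p q)) = m q
    have h1 : m (s (p q)) + m (z * s (p q)) = 0 := congrFun hm (p q)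
    have h2 : m q + m (z * q) = 0 := by
      rw [← hpush m q (p q) rfl, h1]
    rcases (hfib q (s (p q))).1 (by rw [hs']) with h | h
    · rw [h]
    · rw [h]
      have h3 := hcc (m q)
      exact add_left_cancel (h2.trans h3.symm)
  · intro m
    funext x
    change m (p (s x)) + m (p (z * s x)) = 0
    rw [hpz]
    exact hcc _

private theorem cutProd_aux {M : Type} [AddCommGroup M] [Module K M] [Module.Finite K M]
    {U : Finset V} (X : MAct G U K M) (i : ℕ) (n : ℕ) : ∀ (Q : Type) [Group Q] [Fintype Q],
    Fintype.card Q ≤ n → IsPGroup 2 Q → ∀ (g : V → Q) (hg : ∀ v, g v * g v = 1)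
    (hgc : ∀ u v, G.Adj u v → g u * g v = g v * g u),
    betM (prodM g hg hgc X).r (KU G U) i ≤ Fintype.card Q * betM X.r (KU G U) i := by
  induction n with
  | zero =>
    intro Q _ _ hn
    have : 0 < Fintype.card Q := Fintype.card_pos
    omega
  | succ n ih =>
    intro Q _ _ hn hQ g hg hgc
    by_cases hc : Fintype.card Q = 1
    · have hsub : Subsingleton Q := Fintype.card_le_one_iff_subsingleton.1 hc.le
      rw [hc, one_mul]
      exact betM_le_of_equiv (prodM g hg hgc X).r X.r
        { toFun := fun φ => φ 1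
          invFun := fun m _ => m
          left_inv := fun φ => funext fun q => congrArg φ (Subsingleton.elim _ _)
          right_inv := fun m => rfl
          map_add' := fun _ _ => rfl
          map_smul' := fun _ _ => rfl } (fun v φ => by
            change X.r v (φ (1 * g v)) = X.r v (φ 1)
            rw [Subsingleton.elim (1 * g v) 1]) (KU_down' G U) i
    · obtain ⟨z, hz1, hz, hzc⟩ := cutProd_central hQ hc
      haveI := cutProd_two_normal z hz hzc
      letI : Fintype (Q ⧸ cutProd_two z hz) := Fintype.ofFinite _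
      have hcard : Fintype.card Q = Fintype.card (Q ⧸ cutProd_two z hz) * 2 := by
        rw [← cutProd_card_two z hz hz1, ← Nat.card_eq_fintype_card, ← Nat.card_eq_fintype_card]
        exact Subgroup.card_eq_card_quotient_mul_card_subgroup _
      have hpos : 0 < Fintype.card (Q ⧸ cutProd_two z hz) := Fintype.card_pos
      have hg' : ∀ v, ((g v : Q) : Q ⧸ cutProd_two z hz) * (g v : Q) = 1 := fun v => by
        rw [← QuotientGroup.mk_mul, hg, QuotientGroup.mk_one]
      have hgc' : ∀ u v, G.Adj u v → ((g u : Q) : Q ⧸ cutProd_two z hz) * (g v : Q) =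
          ((g v : Q) : Q ⧸ cutProd_two z hz) * (g u : Q) := fun u v h => by
        rw [← QuotientGroup.mk_mul, hgc u v h, QuotientGroup.mk_mul]
      have h1 := ih (Q ⧸ cutProd_two z hz) (by omega) (hQ.to_quotient _)
        (fun v => ((g v : Q) : Q ⧸ cutProd_two z hz)) hg' hgc'
      have h2 := cutProd_step X (QuotientGroup.mk' (cutProd_two z hz))
        (QuotientGroup.mk'_surjective _) z hz1 hz ?_ g
        (fun v => ((g v : Q) : Q ⧸ cutProd_two z hz)) (fun v => rfl) hg hgc hg' hgc' i
      · calc betM (prodM g hg hgc X).r (KU G U) i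
            ≤ 2 * betM (prodM (fun v => ((g v : Q) : Q ⧸ cutProd_two z hz)) hg' hgc' X).r
                (KU G U) i := h2
          _ ≤ 2 * (Fintype.card (Q ⧸ cutProd_two z hz) * betM X.r (KU G U) i) :=
              Nat.mul_le_mul_left 2 h1
          _ = Fintype.card Q * betM X.r (KU G U) i := by rw [hcard]; ring
      · intro a b
        change ((a : Q) : Q ⧸ cutProd_two z hz) = (b : Q) ↔ b = a ∨ b = z * a
        rw [QuotientGroup.eq, cutProd_mem_two]
        constructor
        · rintro (h | h)
          · exact Or.inl (inv_mul_eq_one.1 h).symm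
          · right
            rw [hzc, ← h, mul_inv_cancel_left]
        · rintro (rfl | rfl)
          · exact Or.inl (inv_mul_cancel _)
          · right
            rw [hzc, inv_mul_cancel_left]

/-- As `bet_prod_aux3` in `H4/Singer3/SProd`: induction on the order of `Q`, a central element `z` of
order two, `betM_half` for the pull back `(Q ⧸ ⟨z⟩ → M) → (Q → M)` and the push forward
`(Q → M) → (Q ⧸ ⟨z⟩ → M)`, `φ ↦ φ (s q) + φ (z * s q)`. For `|Q| = 1` use `betM_le_of_equiv`. -/
theorem betM_prod_le {M : Type} [AddCommGroup M] [Module K M] [Module.Finite K M]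
    {U : Finset V} (X : MAct G U K M) {Q : Type} [Group Q] [Fintype Q] (hQ : IsPGroup 2 Q) (g : V → Q)
    (hg : ∀ v, g v * g v = 1) (hgc : ∀ u v, G.Adj u v → g u * g v = g v * g u)
    (i : ℕ) :
    betM (prodM g hg hgc X).r (KU G U) i ≤ Fintype.card Q * betM X.r (KU G U) i :=
  cutProd_aux X i (Fintype.card Q) Q le_rfl hQ g hg hgc

end Pool.Agent.H67.CUT
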